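import Pool.Agent.helper64.TP.API

/-!
# Project sp (MP_7800de_pr): common definitions of the main part

Colourings of the fine grid are arbitrary functions `V → Bool`; the colouring of the coins is
`col b` (constant on bricks). Random sets (pivotal set, spectral sample) are sets of left sites of
bricks (even coordinate sum). `n = 2 ^ i`.
-/

namespace TP

open DP MeasureTheory

/-! ## Colourings -/

/-- `c` with the whole brick of `v` recoloured `k`. -/
def rc (c : V → Bool) (v : V) (k : Bool) : V → Bool := fun w => if br w = br v then k else c w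

/-- Colour flip. -/
def fl (c : V → Bool) : V → Bool := fun v => !(c v)

/-- `c` with everything at distance `< m` from `x` recoloured `k`. -/
def ins (c : V → Bool) (x : V) (m : ℕ) (k : Bool) : V → Bool :=
  fun v => if sd x v < m then k else c v

/-- Three different black crossing clusters of the annulus. -/
def Three (c : V → Bool) (x : V) (m n : ℕ) : Prop :=
  ∃ u ∈ bd x m, ∃ v ∈ bd x m, ∃ w ∈ bd x m,
    (∃ u' ∈ bd x n, Conn c true (ann x m n) u u') ∧ (∃ v' ∈ bd x n, Conn c true (ann x m n) v v') ∧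
    (∃ w' ∈ bd x n, Conn c true (ann x m n) w w') ∧ ¬ Conn c true (ann x m n) u v ∧
    ¬ Conn c true (ann x m n) v w ∧ ¬ Conn c true (ann x m n) u w

/-- A gate: the annulus has exactly two black crossing clusters. -/
def Gate (c : V → Bool) (x : V) (m n : ℕ) : Prop := four c x m n ∧ ¬ Three c x m n

/-- The bit of a gate: two different black crossing clusters of the annulus are connected inside. -/
def hb (c : V → Bool) (x : V) (m n : ℕ) : Prop :=
  ∃ u ∈ bd x n, ∃ v ∈ bd x n, (∃ p ∈ bd x m, Conn c true (ann x m n) p u) ∧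
    (∃ q ∈ bd x m, Conn c true (ann x m n) q v) ∧ ¬ Conn c true (ann x m n) u v ∧
    Conn c true (box x n) u v

/-- Both black sectors are thick: two white crossing sites of the annulus which are not connected by
white in the annulus, whichever brick of the annulus is recoloured white. (Only used inside the
parts C1 and TA; the interface uses `Three`, see `a6`.) -/
def six (c : V → Bool) (x : V) (m n : ℕ) : Prop :=
  ∃ p q : V, c p = false ∧ c q = false ∧ inX c x m n p ∧ inX c x m n q ∧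
    ∀ v ∈ ann x m n, ¬ Conn (rc c v false) false (ann x m n) p q

/-! ## Probabilities of arms between dyadic radii (centre 0; same for all centres of even sum) -/

/-- Four arms. -/
noncomputable def a4 (p q : ℕ) : ℝ := Pr (Ev fun c => four c 0 (2 ^ p) (2 ^ q))

/-- Six alternating arms (three different black crossing clusters). -/
noncomputable def a6 (p q : ℕ) : ℝ := Pr (Ev fun c => Three c 0 (2 ^ p) (2 ^ q))

/-! ## The square -/

/-- Height of the `n × n` square in rows: `⌊2 n / √3⌋`. The site `v` (even sum) of the triangular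
lattice has the position `(v.1 / 2, √3 / 2 * v.2)`. -/
noncomputable def hh (n : ℕ) : ℕ := ⌊2 * (n : ℝ) / √3⌋₊

/-- The sites of the square of side `2 ^ i` (bricks by their left sites). -/
noncomputable def VV (i : ℕ) : Finset V :=
  ((Finset.Icc (0 : ℤ) (2 * 2 ^ i)) ×ˢ (Finset.Icc (0 : ℤ) (hh (2 ^ i)))).filter
    fun v => (v.1 + v.2) % 2 = 0

/-- Black left to right crossing of the square of side `2 ^ i`. -/
noncomputable def Fc (i : ℕ) : Set (V → Bool) :=
  Ev fun c => hcross c true 1 (2 * 2 ^ i) 0 (hh (2 ^ i))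

/-- The pivotal set. -/
noncomputable def PV (i : ℕ) (b : V → Bool) : Set V := {v | v ∈ VV i ∧ b ∈ Piv {v} (Fc i)}

/-- Sign of a coin. -/
def sg (k : Bool) : ℝ := if k then 1 else -1

/-- `2 * 1_F - 1`. -/
noncomputable def pmf (F : Set (V → Bool)) (b : V → Bool) : ℝ := 2 * F.indicator 1 b - 1

/-- Fourier coefficient of `2 * 1_F - 1`. -/
noncomputable def fh (F : Set (V → Bool)) (T : Finset V) : ℝ :=
  ∫ b, pmf F b * ∏ v ∈ T, sg (b v) ∂P1

open Classical in
/-- Probability that the spectral sample of the event `F` (which depends on the coins in `Λ`) has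
the property `A`. -/
noncomputable def PSF (F : Set (V → Bool)) (Λ : Finset V) (A : Set V → Prop) : ℝ :=
  ∑ T ∈ Λ.powerset, if A (T : Set V) then fh F T ^ 2 else 0

/-- Probability that the spectral sample of the square has the property `A`. -/
noncomputable def PS (i : ℕ) (A : Set V → Prop) : ℝ := PSF (Fc i) (VV i) A

/-- Probability that the pivotal set of the square has the property `A`. -/
noncomputable def PPv (i : ℕ) (A : Set V → Prop) : ℝ := Pr {b | A (PV i b)}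

/-- The centre `x` is in the bulk: a neighbourhood of relative size `2 ^ (-k)` is in the square. -/
def Bulk (i k : ℕ) (x : V) : Prop := box x (2 ^ (i - k)) ⊆ rect 1 (2 * 2 ^ i) 0 (hh (2 ^ i))

/-- Centres of the boxes of radius `2 ^ t` in the bulk. -/
noncomputable def GB (i k t : ℕ) : Finset V := by
  classical
  exact ((Finset.Icc (0 : ℤ) (2 * 2 ^ i)) ×ˢ (Finset.Icc (0 : ℤ) (hh (2 ^ i)))).filter
    fun v => (2 ^ (t + 1) : ℤ) ∣ v.1 ∧ (2 ^ (t + 1) : ℤ) ∣ v.2 ∧ Bulk i k v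

/-! ## Tests -/

/-- Monotone formulas: hit a closed rectangle, miss an open rectangle (in units `u`). -/
inductive Form where
  | hit (a b c d : ℤ)
  | miss (a b c d : ℤ)
  | and (φ ψ : Form)
  | or (φ ψ : Form)
  | tt
  | ff

/-- Strict semantics (a closed set of closed sets). -/
def satC (u : ℕ) (X : Set V) : Form → Prop
  | .hit a b c d => ∃ v ∈ X, a * u ≤ v.1 ∧ v.1 ≤ b * u ∧ c * u ≤ v.2 ∧ v.2 ≤ d * u
  | .miss a b c d => ¬ ∃ v ∈ X, a * u < v.1 ∧ v.1 < b * u ∧ c * u < v.2 ∧ v.2 < d * u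
  | .and φ ψ => satC u X φ ∧ satC u X ψ
  | .or φ ψ => satC u X φ ∨ satC u X ψ
  | .tt => True
  | .ff => False

/-- Relaxed semantics (an open set of closed sets): rectangles to be hit are enlarged by one unit and
open, rectangles to be missed are shrunk by one unit and closed. -/
def satO (u : ℕ) (X : Set V) : Form → Prop
  | .hit a b c d => ∃ v ∈ X, (a - 1) * u < v.1 ∧ v.1 < (b + 1) * u ∧ (c - 1) * u < v.2 ∧
      v.2 < (d + 1) * u
  | .miss a b c d => ¬ ∃ v ∈ X, (a + 1) * u ≤ v.1 ∧ v.1 ≤ (b - 1) * u ∧ (c + 1) * u ≤ v.2 ∧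
      v.2 ≤ (d - 1) * u
  | .and φ ψ => satO u X φ ∧ satO u X ψ
  | .or φ ψ => satO u X φ ∨ satO u X ψ
  | .tt => True
  | .ff => False

/-- The criterion, inside an arbitrary infinite set `I` of exponents: for every `η` a test which the
spectral sample passes with probability at least `1 - η` and the pivotal set passes (relaxed) with
probability at most `η`, for infinitely many `n = 2 ^ i`, `i ∈ I`; the unit is `2 ^ (i - E)`. -/
def CRIT_stmt : Prop :=
  ∀ I : Set ℕ, I.Infinite → ∀ η : ℝ, 0 < η → ∃ (E : ℕ) (φ : Form), ∀ i₀ : ℕ, ∃ i ≥ i₀, i ∈ I ∧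
    E ≤ i ∧ 1 - η ≤ PS i (fun X => satC (2 ^ (i - E)) X φ) ∧
    PPv i (fun X => satO (2 ^ (i - E)) X φ) ≤ η

/-! ## Interface statements of the pieces

Geometry of the pair pattern: parameters `p` (cores have radius about `2 ^ p`), `m` (ratio of the
gaps `2 ^ m`), `s` (constant): `y` at distance `2 ^ (p + m + s)` from `x`, outer gap between
`2 ^ (p + m + 3 * s)` and `2 ^ (p + m + 3 * s + m)`. -/

/-- The second core. -/
def yy (h : Bool) (x : V) (r : ℕ) : V := if h = true then (x.1 + r, x.2) else (x.1, x.2 + r)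

/-- The region which the strong pair pattern avoids. -/
def WS (x y : V) (r R : ℕ) : Set V := {v | sd x v < R ∧ r < sd x v ∧ r < sd y v}

/-- The region which the weak pair pattern avoids. -/
def WW (x y : V) (r R : ℕ) : Set V := {v | sd x v ≤ R ∧ r ≤ sd x v ∧ r ≤ sd y v}

/-- Strong pair pattern (pivotal set). -/
def PairS (X : Set V) (h : Bool) (x : V) (p m s : ℕ) : Prop :=
  (∃ v ∈ X, sd (yy h x (2 ^ (p + m + s))) v ≤ 2 ^ (p + 1)) ∧
    ∀ v ∈ X, v ∉ WS x (yy h x (2 ^ (p + m + s))) (2 ^ (p + 1)) (2 ^ (p + m + 3 * s + m - 1))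

/-- Weak pair pattern (spectral sample). -/
def PairW (X : Set V) (h : Bool) (x : V) (p m s : ℕ) : Prop :=
  (∃ v ∈ X, sd (yy h x (2 ^ (p + m + s))) v < 2 ^ (p + 2)) ∧
    ∀ v ∈ X, v ∉ WW x (yy h x (2 ^ (p + m + s))) (2 ^ (p + 2)) (2 ^ (p + m + 3 * s + m - 2))

/-- U1, case (i): an isolated pivotal point. (`+ 1`: bricks which meet the annulus may stick out by
one.) -/
def U1i_stmt : Prop :=
  ∃ (C : ℝ) (k₀ : ℕ), 0 < C ∧ ∀ (i k t p m : ℕ) (x : V), k₀ ≤ t → t + k₀ ≤ p → k₀ ≤ m →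
    p + m + k₀ + k ≤ i → (x.1 + x.2) % 2 = 0 → Bulk i k x →
      PPv i (fun X => (∃ v ∈ X, sd x v ≤ 2 ^ (t + 1)) ∧
        ∀ v ∈ X, ¬ (2 ^ (p + 1) ≤ sd x v + 1 ∧ sd x v ≤ 2 ^ (p + m - 1) + 1)) ≤
      C * (a6 (p + 1) (p + m - 1) / a4 p (p + m)) * a4 t (i - k)

/-- U2, case (i): the spectral sample has a gap at one of many scales. -/
def U2i_stmt : Prop :=
  ∃ (C c : ℝ) (k₀ : ℕ), 0 < C ∧ 0 < c ∧ ∀ (i k t m J : ℕ) (p : ℕ → ℕ) (x : V), k₀ ≤ t → k₀ ≤ m →
    t + k₀ ≤ p 0 → (∀ j, p j + m + k₀ ≤ p (j + 1)) → p J + k ≤ i → (x.1 + x.2) % 2 = 0 →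
    Bulk i k x →
      PS i (fun X => (∃ v ∈ X, sd x v ≤ 2 ^ t) ∧
        ∀ j < J, ∃ v ∈ X, 2 ^ p j < sd x v ∧ sd x v < 2 ^ (p j + m)) ≤
      C * Real.exp (-(c * ∑ j ∈ Finset.range J, a4 (p j) (p j + m))) * a4 t (i - k)

/-- U2, case (ii): the weak pair pattern is rare for the spectral sample. -/
def U2ii_stmt : Prop :=
  ∃ (c : ℝ) (k₀ : ℕ), 0 < c ∧ ∀ s : ℕ, k₀ ≤ s → ∃ C : ℝ, 0 < C ∧
    ∀ (i k t p m : ℕ) (h : Bool) (x : V), k₀ ≤ t → t + k₀ ≤ p → k₀ ≤ m →
    p + m + 3 * s + m + k₀ + k ≤ i → (x.1 + x.2) % 2 = 0 → Bulk i k x →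
      PS i (fun X => (∃ v ∈ X, sd x v ≤ 2 ^ t) ∧ PairW X h x p m s) ≤
      C * Real.exp (-(c * m)) * (a4 p (p + m) ^ 3 * a4 (p + m + 3 * s) (p + m + 3 * s + m)) *
        a4 t (i - k)

/-- Frequency of the strong pair pattern of the pivotal set (relative to four arms). -/
noncomputable def rat (p m s : ℕ) : ℝ :=
  a6 (p + 1) (p + m - 1) ^ 2 * a6 (p + m + 3 * s + 1) (p + m + 3 * s + m - 1) /
    (a4 p (p + m) * a4 (p + m + 3 * s) (p + m + 3 * s + m))

/-- U1, case (ii): the pivotal set has a strong pair pattern at one of many scales. -/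
def U1ii_stmt : Prop :=
  ∃ k₀ : ℕ, ∀ s : ℕ, k₀ ≤ s → ∃ (C c : ℝ), 0 < C ∧ 0 < c ∧
    ∀ (i k t m J : ℕ) (p : ℕ → ℕ) (x : V), k₀ ≤ t → k₀ ≤ m →
    t + k₀ ≤ p 0 → (∀ j, p j + m + 3 * s + m + k₀ + s ≤ p (j + 1)) → p J + k ≤ i →
    (x.1 + x.2) % 2 = 0 → Bulk i k x →
      PPv i (fun X => (∃ v ∈ X, sd x v ≤ 2 ^ (t + 1)) ∧
        ∀ j < J, ¬ PairS X true x (p j) m s ∧ ¬ PairS X false x (p j) m s) ≤
      C * Real.exp (-(c * ∑ j ∈ Finset.range J, rat (p j) m s)) * a4 t (i - k)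

/-- U3: lower tail of the number of boxes hit by the spectral sample. -/
def U3_stmt : Prop :=
  ∀ η : ℝ, 0 < η → ∃ (κ : ℝ) (k e₀ : ℕ), 0 < κ ∧ k ≤ e₀ ∧ ∀ e ≥ e₀, ∃ i₀ : ℕ, ∀ i ≥ i₀,
    PS i (fun X => X.Nonempty ∧
      (Nat.card {x // x ∈ GB i k (i - e) ∧ ∃ v ∈ X, sd x v ≤ 2 ^ (i - e)} : ℝ) <
        κ * (4 ^ e * a4 (i - e) (i - k))) ≤ η

/-- D4: the spectral sample does not come close to the boundary of the square. (Used for `U3`.) -/
def D4_stmt : Prop :=
  ∀ δ : ℝ, 0 < δ → ∃ k i₀ : ℕ, ∀ i ≥ i₀, PS i (fun X => ∃ v ∈ X, ¬ Bulk i k v) ≤ δ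

/-- U4: the spectral sample is not empty in the limit. -/
def U4_stmt : Prop :=
  Filter.Tendsto (fun i => PS i fun X => ¬ X.Nonempty) Filter.atTop (nhds 0)

/-- Facts about `a4`, `a6` used in the assembly. -/
def QA_stmt : Prop :=
  (∀ p q, 0 ≤ a4 p q ∧ a4 p q ≤ 1) ∧ (∀ p q, 0 ≤ a6 p q ∧ a6 p q ≤ a4 p q) ∧
  ∃ (C : ℝ) (k₀ : ℕ), 1 ≤ C ∧ (∀ p m, k₀ ≤ p → 1 ≤ a4 p (p + m) * C ^ (m + 1)) ∧
    ∀ p q, k₀ ≤ p → p + 2 < q → a4 (p + 1) (q - 1) ≤ C * a4 p q

/-- The spectral sample has a law (Parseval). -/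
def PAR_stmt : Prop := ∀ i : ℕ, PS i (fun _ => True) = 1

/-- Assembly. -/
def ASM_stmt : Prop :=
  U1i_stmt → U2i_stmt → U2ii_stmt → U1ii_stmt → U3_stmt → U4_stmt → QA_stmt → PAR_stmt →
    CRIT_stmt

end TP
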