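import Pool.Agent.helper49.SP.MG2
import Pool.Agent.helper52.SP.UJ5
import Pool.Agent.helper64.TP.BBK

/-!
# Project sp: BK inequality for sectionwise monotone events, existence of a cut brick

`Λ` is a finite set of coins. `M` is increasing and `I` decreasing in the coins of `Λ` for every
configuration of the other coins. `BKX`: the probability of `I` and `M` after whitening a black set
`L ∈ D'` is at most `Pr (I ∩ M) * Pr (∃ L ∈ D' black)`.
-/

namespace TP

open DP MeasureTheory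

open Classical in
/-- The coins in `L` are made white. -/
noncomputable def wlc (b : V → Bool) (L : Finset V) : V → Bool := fun v => if v ∈ L then false else b v

theorem col_wlc (b : V → Bool) (L : Finset V) (w : V) :
    col (wlc b L) w = if br w ∈ L then false else col b w := rfl

theorem BKX_fin {F : Set (V → Bool)} (hF : ∃ Γ : Finset V, DP.Dep F (Γ : Set V)) :
    FinR (F.indicator 1) := by
  obtain ⟨Γ, hΓ⟩ := hF
  refine ⟨Γ, fun b b' hb => ?_⟩
  have h3 : b ∈ F ↔ b' ∈ F := hΓ b b' hb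
  by_cases h4 : b ∈ F
  · rw [Set.indicator_of_mem h4, Set.indicator_of_mem (h3.1 h4)]
    rfl
  · rw [Set.indicator_of_notMem h4, Set.indicator_of_notMem fun h5 => h4 (h3.2 h5)]

/-- Sections of a local event are local. -/
theorem BKX_sec (U : Set V) {F : Set (V → Bool)} (hF : ∃ Γ : Finset V, DP.Dep F (Γ : Set V))
    (b : V → Bool) : ∃ Γ : Finset V, DP.Dep {b' | mx U b b' ∈ F} (Γ : Set V) := by
  obtain ⟨Γ, hΓ⟩ := hF
  refine ⟨Γ, fun b' b'' hb => hΓ _ _ fun v hv => ?_⟩
  by_cases hU : v ∈ U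
  · rw [UJ5_mx_in hU, UJ5_mx_in hU]
    exact hb v hv
  · rw [UJ5_mx_out hU, UJ5_mx_out hU]

theorem BKX_av (U : Set V) {F : Set (V → Bool)} (hF : ∃ Γ : Finset V, DP.Dep F (Γ : Set V))
    (b : V → Bool) : av U (F.indicator 1) b = Pr {b' | mx U b b' ∈ F} := by
  obtain ⟨Γ, hΓ⟩ := BKX_sec U hF b
  have hm : MeasurableSet {b' | mx U b b' ∈ F} := DP.Dep.measurableSet hΓ
  unfold av Pr
  rw [← integral_indicator_one hm]
  refine integral_congr_ae (Filter.Eventually.of_forall fun b' => ?_)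
  by_cases h : mx U b b' ∈ F
  · simp only [Set.indicator_of_mem h]
    exact (Set.indicator_of_mem (s := {b' | mx U b b' ∈ F}) h 1).symm
  · simp only [Set.indicator_of_notMem h]
    exact (Set.indicator_of_notMem (s := {b' | mx U b b' ∈ F}) h 1).symm

/-- Fubini for an event. -/
theorem BKX_fub (U : Set V) {F : Set (V → Bool)} (hF : ∃ Γ : Finset V, DP.Dep F (Γ : Set V)) :
    Pr F = ∫ b, Pr {b' | mx U b b' ∈ F} ∂P1 := by
  have h1 := UJ5_mean (U := U) (BKX_fin hF)
  have hm : MeasurableSet F := by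
    obtain ⟨Γ, hΓ⟩ := hF
    exact DP.Dep.measurableSet hΓ
  rw [integral_indicator_one hm] at h1
  rw [Pr, ← h1]
  exact integral_congr_ae (Filter.Eventually.of_forall fun b => BKX_av U hF b)

theorem BKX_int (U : Set V) {F : Set (V → Bool)} (hF : ∃ Γ : Finset V, DP.Dep F (Γ : Set V)) :
    Integrable (fun b => Pr {b' | mx U b b' ∈ F}) P1 := by
  have h1 := (UJ5.1 U _ (BKX_fin hF)).1
  have h2 := (UJ5.1 U _ h1).2.2.1
  exact h2.congr (Filter.Eventually.of_forall fun b => BKX_av U hF b)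

theorem BKX (Λ : Finset V) (D' : Set (Finset V)) (M I : Set (V → Bool)) (hD : ∀ L ∈ D', L ⊆ Λ)
    (lM : ∃ Γ : Finset V, DP.Dep M (Γ : Set V)) (lI : ∃ Γ : Finset V, DP.Dep I (Γ : Set V))
    (mM : ∀ b b' : V → Bool, (∀ v, v ∉ Λ → b v = b' v) → (∀ v ∈ Λ, b v = true → b' v = true) →
      b ∈ M → b' ∈ M)
    (mI : ∀ b b' : V → Bool, (∀ v, v ∉ Λ → b v = b' v) → (∀ v ∈ Λ, b v = false → b' v = false) →
      b ∈ I → b' ∈ I) :
    Pr (I ∩ {b | ∃ L ∈ D', (∀ v ∈ L, b v = true) ∧ wlc b L ∈ M}) ≤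
      Pr (I ∩ M) * Pr {b | ∃ L ∈ D', ∀ v ∈ L, b v = true} := by
  classical
  obtain ⟨ΓM, hM⟩ := lM
  obtain ⟨ΓI, hI⟩ := lI
  set E : Set (V → Bool) := I ∩ {b | ∃ L ∈ D', (∀ v ∈ L, b v = true) ∧ wlc b L ∈ M} with hE
  have dE : ∃ Γ : Finset V, DP.Dep E (Γ : Set V) := by
    refine ⟨ΓI ∪ Λ ∪ ΓM, ?_⟩
    have key : ∀ b b' : V → Bool, (∀ v ∈ ((ΓI ∪ Λ ∪ ΓM : Finset V) : Set V), b v = b' v) →
        b ∈ E → b' ∈ E := by
      rintro b b' hb ⟨h1, L, hL, h2, h3⟩
      refine ⟨(hI b b' fun v hv => hb v ?_).1 h1, L, hL, fun v hv => ?_, (hM _ _ fun v hv => ?_).1 h3⟩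
      · simp only [Finset.coe_union, Set.mem_union]
        exact Or.inl (Or.inl hv)
      · rw [← hb v (by simp only [Finset.coe_union, Set.mem_union]; exact Or.inl (Or.inr (hD L hL hv)))]
        exact h2 v hv
      · unfold wlc
        rw [hb v (by simp only [Finset.coe_union, Set.mem_union]; exact Or.inr hv)]
    exact fun b b' hb => ⟨key b b' hb, key b' b fun v hv => (hb v hv).symm⟩
  have dF : ∃ Γ : Finset V, DP.Dep (I ∩ M) (Γ : Set V) := by
    refine ⟨ΓI ∪ ΓM, ?_⟩
    have key : ∀ b b' : V → Bool, (∀ v ∈ ((ΓI ∪ ΓM : Finset V) : Set V), b v = b' v) →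
        b ∈ I ∩ M → b' ∈ I ∩ M := by
      rintro b b' hb ⟨h1, h2⟩
      refine ⟨(hI b b' fun v hv => hb v ?_).1 h1, (hM b b' fun v hv => hb v ?_).1 h2⟩
      · simp only [Finset.coe_union, Set.mem_union]
        exact Or.inl hv
      · simp only [Finset.coe_union, Set.mem_union]
        exact Or.inr hv
    exact fun b b' hb => ⟨key b b' hb, key b' b fun v hv => (hb v hv).symm⟩
  rw [BKX_fub (Λ : Set V) dE, BKX_fub (Λ : Set V) dF, ← integral_mul_const]
  refine integral_mono (BKX_int _ dE) ((BKX_int _ dF).mul_const _) fun b => ?_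
  have h := TPK.Bbk DP.Bone true Λ
    {K | K ⊆ Λ ∧ mx (Λ : Set V) b (fun v => decide (v ∈ K)) ∈ M} D' {b' | mx (Λ : Set V) b b' ∈ I}
    (fun K hK => hK.1) hD ?_ ?_
  · refine le_trans (measureReal_mono ?_ (measure_ne_top _ _)) (le_trans h ?_)
    · rintro b' ⟨h1, L, hL, h2, h3⟩
      refine ⟨h1, Λ.filter (fun v => b' v = true ∧ v ∉ L), ⟨Finset.filter_subset _ _, ?_⟩, L, hL, ?_,
        ?_, ?_⟩
      · have : mx (Λ : Set V) b (fun v => decide (v ∈ Λ.filter (fun v => b' v = true ∧ v ∉ L))) =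
            wlc (mx (Λ : Set V) b b') L := by
          funext v
          unfold mx wlc
          by_cases hv : v ∈ Λ
          · by_cases hvL : v ∈ L
            · simp [hv, hvL]
            · simp [hv, hvL]
          · have : v ∉ L := fun h => hv (hD L hL h)
            simp [hv, this]
        rw [this]
        exact h3
      · rw [Finset.disjoint_left]
        intro v hv
        exact (Finset.mem_filter.1 hv).2.2
      · intro v hv
        exact (Finset.mem_filter.1 hv).2.1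
      · intro v hv
        have := h2 v hv
        rwa [UJ5_mx_in (show v ∈ (Λ : Set V) from hD L hL hv)] at this
    · refine mul_le_mul_of_nonneg_right (measureReal_mono ?_ (measure_ne_top _ _))
        measureReal_nonneg
      rintro b' ⟨h1, K, hK, h2⟩
      refine ⟨h1, mM _ _ ?_ ?_ hK.2⟩
      · intro v hv
        rw [UJ5_mx_out (show v ∉ (Λ : Set V) from hv), UJ5_mx_out (show v ∉ (Λ : Set V) from hv)]
      · intro v hv h3
        rw [UJ5_mx_in (show v ∈ (Λ : Set V) from hv)] at h3 ⊢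
        exact h2 v (of_decide_eq_true h3)
  · refine ⟨Λ, subset_refl _, fun b' b'' hb => ?_⟩
    have : mx (Λ : Set V) b b' = mx (Λ : Set V) b b'' := by
      funext v
      by_cases hv : v ∈ (Λ : Set V)
      · rw [UJ5_mx_in hv, UJ5_mx_in hv]
        exact hb v hv
      · rw [UJ5_mx_out hv, UJ5_mx_out hv]
    change mx (Λ : Set V) b b' ∈ I ↔ mx (Λ : Set V) b b'' ∈ I
    rw [this]
  · intro b' b'' hb h1
    refine mI _ _ (fun v hv => ?_) (fun v hv h3 => ?_) h1
    · rw [UJ5_mx_out (show v ∉ (Λ : Set V) from hv), UJ5_mx_out (show v ∉ (Λ : Set V) from hv)]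
    · rw [UJ5_mx_in (show v ∈ (Λ : Set V) from hv)] at h3 ⊢
      exact hb v h3

/-- Existence of a cut brick: if every connection of `a` and `b` in `S` contains a set `L ∈ D'`
with all its bricks in `T`, and no `L ∈ D'` contained in `S` can be removed without disconnecting `a`
and `b`, then there is one brick of `T` which disconnects `a` and `b`. -/
theorem BKX_cut (S T : Set V) (D' : Set (Set V)) (a b : V) (ha : br a ∉ T) (hb : br b ∉ T)
    (hS : Con S a b) (hT : ∀ K ⊆ S, Con K a b → ∃ L ∈ D', L ⊆ K ∧ ∀ v ∈ L, br v ∈ T)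
    (hn : ¬ ∃ L ∈ D', L ⊆ S ∧ Con {v | v ∈ S ∧ ∀ w ∈ L, br w ≠ br v} a b) :
    ∃ t ∈ T, ¬ Con {v | v ∈ S ∧ br v ≠ t} a b := by
  by_contra hcon
  push Not at hcon
  obtain ⟨K, K', hK, hK', c, c', hd⟩ := MG2 S T a b ha hb hS hcon
  obtain ⟨L, hL, hLK, hLT⟩ := hT K' hK' c'
  refine hn ⟨L, hL, hLK.trans hK', ?_⟩
  refine c.mono ?_
  intro v hv
  refine ⟨hK hv, fun w hw e => ?_⟩
  exact hd v hv w (hLK hw) e.symm (e ▸ hLT w hw)

end TP
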