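import Pool.Agent.helper64.TP.Basic

/-!
# Project sp: Menger's theorem for two paths, capacities on the bricks of a set `T`

If no brick of `T` separates `a` and `b` in `S`, there are two connections of `a` and `b` in `S`
which have no brick of `T` in common.
-/

namespace TP

open DP

/-- Two connections in `S` from `a` to `y` with no common brick in `T` except the brick of `y`. -/
def MG2_D (S T : Set V) (a y : V) : Prop :=
  ∃ K K' : Set V, K ⊆ S ∧ K' ⊆ S ∧ Con K a y ∧ Con K' a y ∧
    ∀ u ∈ K, ∀ v ∈ K', br u = br v → br u ∉ T ∨ br u = br y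

/-- A connection from `a` to `z` restricted to the part before the brick of `z`. -/
theorem MG2_pre {K : Set V} {a z : V} (h : Con K a z) (hz : br a ≠ br z) :
    ∃ s z' : V, Con {v | v ∈ K ∧ br v ≠ br z} a s ∧ Adj s z' ∧ z' ∈ K ∧ br z' = br z := by
  by_contra hcon
  push Not at hcon
  have key : ∀ v, Relation.ReflTransGen (fun a b => Adj a b ∧ b ∈ K) a v →
      Con {v | v ∈ K ∧ br v ≠ br z} a v := by
    intro v hv
    induction hv with
    | refl => exact ⟨⟨h.1, hz⟩, .refl⟩
    | @tail v w _ h2 ih =>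
      by_cases hw : br w = br z
      · exact absurd hw (hcon v w ih h2.1 h2.2)
      · exact ih.tail h2.1 ⟨h2.2, hw⟩
  exact (key z h.2).mem_right.2 rfl

/-- First visit of a set of bricks. -/
theorem MG2_hit {R : Set V} {y a : V} {Q : Set V} (h : Con R y a) (ha : br a ∈ Q) :
    ∃ s, Con ({v | v ∈ R ∧ br v ∉ Q} ∪ {s}) y s ∧ s ∈ R ∧ br s ∈ Q := by
  by_contra hcon
  push Not at hcon
  have key : ∀ v, Relation.ReflTransGen (fun a b => Adj a b ∧ b ∈ R) y v →
      Con {v | v ∈ R ∧ br v ∉ Q} y v := by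
    intro v hv
    induction hv with
    | refl =>
      by_cases hy : br y ∈ Q
      · exact absurd hy (hcon y ⟨Or.inr rfl, .refl⟩ h.1)
      · exact ⟨⟨h.1, hy⟩, .refl⟩
    | @tail v w _ h2 ih =>
      by_cases hw : br w ∈ Q
      · exact absurd hw (hcon w ((ih.mono Set.subset_union_left).tail h2.1 (Or.inr rfl)) h2.2)
      · exact ih.tail h2.1 ⟨h2.2, hw⟩
  exact (key a h.2).mem_right.2 ha

theorem MG2_near {K : Set V} {u v : V} (hu : u ∈ K) (hv : v ∈ K) (h : br u = br v) : Con K u v := by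
  by_cases he : u = v
  · subst he
    exact DP.Con.refl hu
  · exact DP.Con.single hu (br_adj h he) hv

/-- One step. -/
theorem MG2_step {S T : Set V} {a z y : V} (ha : br a ∉ T) (hD : MG2_D S T a z) (hy : y ∈ S)
    (hzy : Adj z y) (hc : br z ∈ T → br z ≠ br y → Con {v | v ∈ S ∧ br v ≠ br z} a y) :
    MG2_D S T a y := by
  obtain ⟨K, K', hK, hK', c, c', hd⟩ := hD
  by_cases h1 : br z ∈ T ∧ br z ≠ br y
  swap
  · -- extend both by `y`
    refine ⟨K ∪ {y}, K' ∪ {y}, ?_, ?_, (c.mono Set.subset_union_left).tail hzy (Or.inr rfl),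
      (c'.mono Set.subset_union_left).tail hzy (Or.inr rfl), ?_⟩
    · rintro v (hv | rfl)
      exacts [hK hv, hy]
    · rintro v (hv | rfl)
      exacts [hK' hv, hy]
    · rintro u (hu | rfl) v (hv | rfl) e
      · rcases hd u hu v hv e with h2 | h2
        · exact Or.inl h2
        · by_cases h3 : br z ∈ T
          · have h4 : br z = br y := by
              by_contra h5
              exact h1 ⟨h3, h5⟩
            exact Or.inr (h2.trans h4)
          · exact Or.inl (h2 ▸ h3)
      · exact Or.inr e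
      · exact Or.inr rfl
      · exact Or.inr rfl
  obtain ⟨hzT, hne⟩ := h1
  have haz : br a ≠ br z := fun e => ha (e ▸ hzT)
  have hR := (hc hzT hne).symm
  -- the parts before the brick of `z`
  obtain ⟨s₁, z₁, p1, p2, p3, p4⟩ := MG2_pre c haz
  obtain ⟨s₂, z₂, q1, q2, q3, q4⟩ := MG2_pre c' haz
  set C : Set V := {v | Con {v | v ∈ K ∧ br v ≠ br z} a v} with hC
  set C' : Set V := {v | Con {v | v ∈ K' ∧ br v ≠ br z} a v} with hC'
  have hCc : ∀ v ∈ C, Con C a v := by
    intro v hv
    have h5 : ∀ w, Relation.ReflTransGen (fun a b => Adj a b ∧ b ∈ {v | v ∈ K ∧ br v ≠ br z}) a w →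
        Con C a w := by
      intro w hw
      induction hw with
      | refl => exact DP.Con.refl (⟨⟨c.1, haz⟩, .refl⟩ : a ∈ C)
      | @tail v w h6 h7 ih => exact ih.tail h7.1 (⟨⟨c.1, haz⟩, h6.tail h7⟩ : w ∈ C)
    exact h5 v hv.2
  have hCc' : ∀ v ∈ C', Con C' a v := by
    intro v hv
    have h5 : ∀ w, Relation.ReflTransGen (fun a b => Adj a b ∧ b ∈ {v | v ∈ K' ∧ br v ≠ br z}) a w →
        Con C' a w := by
      intro w hw
      induction hw with
      | refl => exact DP.Con.refl (⟨⟨c'.1, haz⟩, .refl⟩ : a ∈ C')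
      | @tail v w h6 h7 ih => exact ih.tail h7.1 (⟨⟨c'.1, haz⟩, h6.tail h7⟩ : w ∈ C')
    exact h5 v hv.2
  have hCK : ∀ v ∈ C, v ∈ K ∧ br v ≠ br z := fun v hv => hv.mem_right
  have hCK' : ∀ v ∈ C', v ∈ K' ∧ br v ≠ br z := fun v hv => hv.mem_right
  have haC : a ∈ C := ⟨⟨c.1, haz⟩, .refl⟩
  -- the general construction
  have gen : ∀ (A A' : Set V) (t z' s s' : V), A ⊆ S → A' ⊆ S → (∀ v ∈ A, br v ≠ br z) →
      (∀ u ∈ A, ∀ v ∈ A', br u = br v → br u ∉ T ∨ br u = br z) → (∀ v ∈ A, Con A a v) →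
      (∀ v ∈ A', Con A' a v) → t ∈ A' → Adj t z' → z' ∈ S → br z' = br z →
      Con ({v | v ∈ {v | v ∈ S ∧ br v ≠ br z} ∧ br v ∉ {q | ∃ u, (u ∈ A ∨ u ∈ A') ∧ br u = q}} ∪ {s})
        y s → s ∈ S → br s ≠ br z → s' ∈ A → br s' = br s → MG2_D S T a y := by
    intro A A' t z' s s' hA hA' hAz hd2 hAc hAc' ht htz hz'S hz' hys hsS hsz hs' hss
    have hzS : z ∈ S := hK c.mem_right
    refine ⟨A ∪ ({v | v ∈ {v | v ∈ S ∧ br v ≠ br z} ∧
        br v ∉ {q | ∃ u, (u ∈ A ∨ u ∈ A') ∧ br u = q}} ∪ {s}), A' ∪ ({z', z, y} : Set V), ?_, ?_,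
        ?_, ?_, ?_⟩
    · rintro v (hv | hv | rfl)
      exacts [hA hv, hv.1.1, hsS]
    · rintro v (hv | rfl | rfl | rfl)
      exacts [hA' hv, hz'S, hzS, hy]
    · refine ((hAc s' hs').mono Set.subset_union_left).trans ?_
      refine (MG2_near (Or.inl hs') (Or.inr (Or.inr rfl)) hss).trans ?_
      exact hys.symm.mono Set.subset_union_right
    · refine ((hAc' t ht).mono Set.subset_union_left).trans ?_
      refine (DP.Con.single (Or.inl ht) htz (Or.inr (Or.inl rfl))).trans ?_
      refine (MG2_near (Or.inr (Or.inl rfl)) (Or.inr (Or.inr (Or.inl rfl))) hz').trans ?_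
      exact DP.Con.single (Or.inr (Or.inr (Or.inl rfl))) hzy (Or.inr (Or.inr (Or.inr rfl)))
    · rintro u (hu | hu | rfl) v (hv | rfl | rfl | rfl) e
      · rcases hd2 u hu v hv e with h6 | h6
        · exact Or.inl h6
        · exact absurd h6 (hAz u hu)
      · exact absurd (e.trans hz') (hAz u hu)
      · exact absurd e (hAz u hu)
      · exact Or.inr e
      · exact absurd ⟨v, Or.inr hv, e.symm⟩ hu.2
      · exact absurd (e.trans hz') hu.1.2
      · exact absurd e hu.1.2
      · exact Or.inr e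
      · rcases hd2 s' hs' v hv (hss.trans e) with h6 | h6
        · exact Or.inl (hss ▸ h6)
        · exact absurd h6 (hAz s' hs')
      · exact absurd (e.trans hz') hsz
      · exact absurd e hsz
      · exact Or.inr e
  obtain ⟨s, hs1, hs2, hs3⟩ := MG2_hit (Q := {q | ∃ u, (u ∈ C ∨ u ∈ C') ∧ br u = q}) hR
    ⟨a, Or.inl haC, rfl⟩
  have hCS : C ⊆ S := fun v hv => hK (hCK v hv).1
  have hCS' : C' ⊆ S := fun v hv => hK' (hCK' v hv).1
  obtain ⟨s', hs' | hs', hss⟩ := hs3
  · exact gen C C' s₂ z₂ s s' hCS hCS' (fun v hv => (hCK v hv).2)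
      (fun u hu v hv e => hd u (hCK u hu).1 v (hCK' v hv).1 e) hCc hCc' q1 q2 (hK' q3) q4 hs1
      hs2.1 hs2.2 hs' hss
  · refine gen C' C s₁ z₁ s s' hCS' hCS (fun v hv => (hCK' v hv).2)
      (fun u hu v hv e => ?_) hCc' hCc p1 p2 (hK p3) p4 ?_ hs2.1 hs2.2 hs' hss
    · rcases hd v (hCK v hv).1 u (hCK' u hu).1 e.symm with h6 | h6
      · exact Or.inl (e ▸ h6)
      · exact Or.inr (e.trans h6)
    · refine hs1.mono ?_
      rintro v (hv | rfl)
      · refine Or.inl ⟨hv.1, ?_⟩
        rintro ⟨u, hu, hu2⟩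
        exact hv.2 ⟨u, hu.symm, hu2⟩
      · exact Or.inr rfl

theorem MG2_fun {S : Set V} {a b : V} (h : Con S a b) :
    ∃ (n : ℕ) (f : ℕ → V), f 0 = a ∧ f n = b ∧ (∀ i ≤ n, f i ∈ S) ∧ ∀ i < n, Adj (f i) (f (i + 1)) := by
  obtain ⟨ha, h⟩ := h
  induction h with
  | refl => exact ⟨0, fun _ => a, rfl, rfl, fun _ _ => ha, fun i hi => absurd hi (Nat.not_lt_zero i)⟩
  | @tail v w _ h2 ih =>
    obtain ⟨n, f, h3, h4, h5, h6⟩ := ih
    refine ⟨n + 1, fun i => if i ≤ n then f i else w, by simp [h3], by simp, ?_, ?_⟩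
    · intro i hi
      by_cases hin : i ≤ n
      · simpa [hin] using h5 i hin
      · simpa [hin] using h2.2
    · intro i hi
      by_cases hin : i + 1 ≤ n
      · have : i ≤ n := by omega
        simpa [hin, this] using h6 i (by omega)
      · have h7 : i = n := by omega
        subst h7
        simp only [le_refl, if_true, hin, if_false, h4]
        exact h2.1

theorem MG2_ofun {S : Set V} {f : ℕ → V} {n : ℕ} (h : ∀ i ≤ n, f i ∈ S)
    (h' : ∀ i < n, Adj (f i) (f (i + 1))) : Con S (f 0) (f n) := by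
  induction n with
  | zero => exact DP.Con.refl (h 0 le_rfl)
  | succ n ih =>
    exact (ih (fun i hi => h i (by omega)) (fun i hi => h' i (by omega))).tail (h' n (by omega))
      (h (n + 1) le_rfl)

/-- Menger's theorem for two paths with capacities on the bricks of `T`. -/
theorem MG2 (S T : Set V) (a b : V) (ha : br a ∉ T) (hb : br b ∉ T) (hS : Con S a b)
    (hT : ∀ t ∈ T, Con {v | v ∈ S ∧ br v ≠ t} a b) :
    ∃ K K' : Set V, K ⊆ S ∧ K' ⊆ S ∧ Con K a b ∧ Con K' a b ∧
      ∀ u ∈ K, ∀ v ∈ K', br u = br v → br u ∉ T := by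
  obtain ⟨n, f, h0, hn, hf, hA⟩ := MG2_fun hS
  have main : ∀ k ≤ n, (∀ t ∈ T, t ≠ br (f k) → Con {v | v ∈ S ∧ br v ≠ t} a (f k)) →
      MG2_D S T a (f k) := by
    intro k
    induction k using Nat.strong_induction_on with
    | _ k ih =>
      intro hk hg
      rcases Nat.eq_zero_or_pos k with rfl | hk0
      · rw [h0]
        have haS : a ∈ S := h0 ▸ hf 0 (Nat.zero_le _)
        refine ⟨{a}, {a}, by simpa using haS, by simpa using haS, DP.Con.refl rfl, DP.Con.refl rfl, ?_⟩
        rintro u rfl v _ _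
        exact Or.inl ha
      obtain ⟨j, rfl⟩ : ∃ j, k = j + 1 := ⟨k - 1, by omega⟩
      by_cases hgood : ∀ t ∈ T, t ≠ br (f j) → Con {v | v ∈ S ∧ br v ≠ t} a (f j)
      · exact MG2_step ha (ih j (by omega) (by omega) hgood) (hf _ hk) (hA j (by omega))
          (fun h1 h2 => hg _ h1 h2)
      · push Not at hgood
        obtain ⟨t, ht, ht1, ht2⟩ := hgood
        have ht3 : t = br (f (j + 1)) := by
          by_contra h1
          refine ht2 ((hg t ht h1).tail ?_ ⟨hf j (by omega), ht1.symm⟩)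
          exact (hA j (by omega)).symm
        -- the prefix visits the brick `t`
        have h5 : ∃ i ≤ j, br (f i) = t := by
          by_contra h6
          push Not at h6
          apply ht2
          have := MG2_ofun (S := {v | v ∈ S ∧ br v ≠ t}) (f := f) (n := j)
            (fun i hi => ⟨hf i (by omega), h6 i hi⟩) (fun i hi => hA i (by omega))
          rwa [h0] at this
        obtain ⟨i, hi, hit⟩ := h5
        have hbr : br (f i) = br (f (j + 1)) := hit.trans ht3
        have hD : MG2_D S T a (f i) := by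
          refine ih i (by omega) (by omega) ?_
          intro t' ht' hne
          refine (hg t' ht' (hbr ▸ hne)).trans ?_
          exact MG2_near ⟨hf _ hk, by rw [← hbr]; exact hne.symm⟩ ⟨hf i (by omega), hne.symm⟩ hbr.symm
        obtain ⟨K, K', hK, hK', c, c', hd⟩ := hD
        refine ⟨K ∪ {f (j + 1)}, K' ∪ {f (j + 1)}, ?_, ?_,
          (c.mono Set.subset_union_left).trans (MG2_near (Or.inl c.mem_right) (Or.inr rfl) hbr),
          (c'.mono Set.subset_union_left).trans (MG2_near (Or.inl c'.mem_right) (Or.inr rfl) hbr), ?_⟩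
        · rintro v (hv | rfl)
          exacts [hK hv, hf _ hk]
        · rintro v (hv | rfl)
          exacts [hK' hv, hf _ hk]
        · rintro u (hu | rfl) v (hv | rfl) e
          · rcases hd u hu v hv e with h7 | h7
            · exact Or.inl h7
            · exact Or.inr (h7.trans hbr)
          · exact Or.inr e
          · exact Or.inr rfl
          · exact Or.inr rfl
  have hfin := main n le_rfl (by rw [hn]; exact fun t ht _ => hT t ht)
  rw [hn] at hfin
  obtain ⟨K, K', hK, hK', c, c', hd⟩ := hfin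
  refine ⟨K, K', hK, hK', c, c', fun u hu v hv e => ?_⟩
  rcases hd u hu v hv e with h7 | h7
  · exact h7
  · exact h7 ▸ hb

end TP
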