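import Pool.Agent.helper3.SP.SpecPP

/-!
# Project sp, PK3: from the bit to the core
-/

namespace TP

open DP MeasureTheory

/-- The colouring or its flip. -/
def PK3_d (c : V → Bool) (k : Bool) : V → Bool := if k = true then c else fl c

theorem PK3_conn {c : V → Bool} {k : Bool} {R : Set V} {u v : V} :
    Conn (PK3_d c k) true R u v ↔ Conn c k R u v := by
  cases k
  · have e : {w | w ∈ R ∧ fl c w = true} = {w | w ∈ R ∧ c w = false} := by
      ext w
      simp [fl]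
    show Conn (fl c) true R u v ↔ Conn c false R u v
    unfold Conn
    rw [e]
  · exact Iff.rfl

/-- Without three crossing clusters every crossing is in one of two given ones. -/
theorem PK3_two {c : V → Bool} {k : Bool} {y : V} {M N : ℕ} (hT : ¬ Three (PK3_d c k) y M N)
    {v v' s q q' t : V} (hv : v ∈ bd y N) (hv' : v' ∈ bd y N) (hs : s ∈ bd y N)
    (hq : q ∈ bd y M) (hq' : q' ∈ bd y M) (ht : t ∈ bd y M) (h1 : Conn c k (ann y M N) q v)
    (h2 : Conn c k (ann y M N) q' v') (h3 : Conn c k (ann y M N) t s)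
    (hne : ¬ Conn c k (ann y M N) v v') :
    Conn c k (ann y M N) v s ∨ Conn c k (ann y M N) v' s := by
  by_contra hcon
  push Not at hcon
  obtain ⟨n1, n2⟩ := hcon
  refine hT ⟨q, hq, q', hq', t, ht, ⟨v, hv, PK3_conn.2 h1⟩, ⟨v', hv', PK3_conn.2 h2⟩,
    ⟨s, hs, PK3_conn.2 h3⟩, fun e => hne ?_, fun e => n2 ?_, fun e => n1 ?_⟩
  · exact (h1.symm.trans (PK3_conn.1 e)).trans h2
  · exact (h2.symm.trans (PK3_conn.1 e)).trans h3
  · exact (h1.symm.trans (PK3_conn.1 e)).trans h3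

theorem PK3_arm {c : V → Bool} {k : Bool} {R : Set V} {y p u : V} {m M N n : ℕ}
    (hc : Conn c k R p u) (hp : p ∈ bd y m) (hu : u ∈ bd y n) (h1 : m ≤ M) (h2 : M ≤ N)
    (h3 : N ≤ n) : ∃ v ∈ bd y N, ∃ q ∈ bd y M, Conn c k (ann y M N) q v ∧ Conn c k R v u := by
  have sp : sd y p = m := hp
  have su : sd y u = n := hu
  obtain ⟨v, hv, e1, e2⟩ := DP.Con.exit (x := y) (m := N) hc (by omega) (by omega)
  obtain ⟨q, hq, e3, -⟩ := DP.Con.enter (x := y) (m := M) (DP.Con.symm e1) (by omega) (by omega)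
  refine ⟨v, hv, q, hq, DP.Con.symm (DP.Con.mono ?_ e3), e2⟩
  rintro z ⟨⟨hz1, hz2⟩, hz3⟩
  exact ⟨⟨hz3, hz2⟩, hz1.2⟩

theorem PK3_core (h30 : PP30_stmt) (c c' : V → Bool) (k : Bool) (y : V) (m M N n : ℕ)
    (hy : Even (y.1 + y.2)) (hm : 64 ≤ m) (h1 : m ≤ M) (h2 : M < N) (h3 : 2 * N ≤ n)
    (hmn : 2 * m ≤ n) (hS : Std c 4 true y n (Dmark 4 y m))
    (hcc : ∀ v, m ≤ sd y v → c v = c' v) (hT : ¬ Three (PK3_d c k) y M N)
    (hb : hb (PK3_d c' k) y M N) :
    ∃ p ∈ bd y n, ∃ u ∈ bd y n, sd (zpt y n (if k = true then 0 else 1)) p ≤ n / 64 ∧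
      sd (zpt y n (if k = true then 2 else 3)) u ≤ n / 64 ∧
      Conn c' k (box y n \ opp 4 (zpt y n) (n / 8) k) p u := by
  have hM : MrkC c 4 true y n (Dmark 4 y m) (zpt y n) (n / 64) (n / 8) k := by
    cases k
    · exact hS.2
    · exact hS.1
  set R : Set V := HS true y n \ ((Dmark 4 y m).N k ∪ opp 4 (zpt y n) (n / 8) k) with hR
  have hsub : R ⊆ ann y m n := by
    intro z hz
    have h1 : sd y z ≤ n := hz.1
    refine ⟨?_, h1⟩
    by_contra hlt
    exact hz.2 (Or.inl (Or.inl (by simpa using hlt)))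
  have hsub2 : R ⊆ box y n \ opp 4 (zpt y n) (n / 8) k := fun z hz =>
    ⟨hz.1, fun h => hz.2 (Or.inr h)⟩
  have arms : ∃ p ∈ bd y m, ∃ u ∈ bd y n, ∃ p' ∈ bd y m, ∃ u' ∈ bd y n,
      sd (zpt y n (if k = true then 0 else 1)) u ≤ n / 64 ∧
      sd (zpt y n (if k = true then 2 else 3)) u' ≤ n / 64 ∧ Conn c k R p u ∧
      Conn c k R p' u' := by
    have hk0 : kol (if k = true then 0 else 1) = k := by cases k <;> rfl
    have hk2 : kol (if k = true then 2 else 3) = k := by cases k <;> rfl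
    have hl0 : (if k = true then 0 else 1) < 4 := by cases k <;> simp
    have hl2 : (if k = true then 2 else 3) < 4 := by cases k <;> simp
    have er0 : ((if k = true then 0 else 1) + 2) % 4 = (if k = true then 2 else 3) := by
      cases k <;> rfl
    have er2 : ((if k = true then 2 else 3) + 2) % 4 = (if k = true then 0 else 1) := by
      cases k <;> rfl
    rcases hM with hM | hM
    · obtain ⟨p, hp, u, hu, g1, g2⟩ := hM _ hl0 hk0
      obtain ⟨p', hp', u', hu', g1', g2'⟩ := hM _ hl2 hk2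
      exact ⟨p, hp.1, u, hu, p', hp'.1, u', hu', g1, g1', g2, g2'⟩
    · obtain ⟨p, hp, u, hu, g1, g2⟩ := hM _ hl0 hk0
      obtain ⟨p', hp', u', hu', g1', g2'⟩ := hM _ hl2 hk2
      rw [er0] at g1
      rw [er2] at g1'
      exact ⟨p', hp'.1, u', hu', p, hp.1, u, hu, g1', g1, g2', g2⟩
  obtain ⟨p, hp, u, hu, p', hp', u', hu', d0, d2, c0, c2⟩ := arms
  have hne := h30 c k y u u' p p' m n hy hm hmn hS hu hu' hp hp' d0 d2 (c0.mono hsub)
    (c2.mono hsub)
  obtain ⟨v, hv, q, hq, e0, f0⟩ := PK3_arm (M := M) (N := N) c0 hp hu h1 h2.le (by omega)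
  obtain ⟨v', hv', q', hq', e2, f2⟩ := PK3_arm (M := M) (N := N) c2 hp' hu' h1 h2.le (by omega)
  have hA : ann y M N ⊆ ann y m n := fun z hz => ⟨h1.trans hz.1, hz.2.trans (by omega)⟩
  have hvv : ¬ Conn c k (ann y M N) v v' := fun e =>
    hne (((f0.symm.mono hsub).trans (e.mono hA)).trans (f2.mono hsub))
  have hcg : ∀ {a b : V}, Conn c k (ann y M N) a b ↔ Conn c' k (ann y M N) a b := by
    intro a b
    exact Conn.congr fun w hw => hcc w (h1.trans hw.1)
  obtain ⟨s, hs, s', hs', ⟨t, ht, g1⟩, ⟨t', ht', g2⟩, g3, g4⟩ := hb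
  rw [PK3_conn] at g1 g2 g3 g4
  rw [← hcg] at g1 g2 g3
  have k1 := PK3_two hT hv hv' hs hq hq' ht e0 e2 g1 hvv
  have k2 := PK3_two hT hv hv' hs' hq hq' ht' e0 e2 g2 hvv
  have hB : ann y M N ⊆ box y N := fun z hz => hz.2
  have fin : Conn c' k (box y N) v v' := by
    rcases k1 with k1 | k1 <;> rcases k2 with k2 | k2
    · exact absurd (k1.symm.trans k2) g3
    · exact (((hcg.1 k1).mono hB).trans g4).trans ((hcg.1 k2).symm.mono hB)
    · exact (((hcg.1 k2).mono hB).trans g4.symm).trans ((hcg.1 k1).symm.mono hB)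
    · exact absurd (k1.symm.trans k2) g3
  have hbox : box y N ⊆ box y n \ opp 4 (zpt y n) (n / 8) k := by
    intro z hz
    have hz1 : sd y z ≤ N := hz
    refine ⟨hz1.trans (by omega), ?_⟩
    rintro ⟨l, -, -, hl⟩
    have z1 : sd y (zpt y n l) = n := by
      unfold zpt sd
      split_ifs <;> simp
    have z2 := sd_triangle y z (zpt y n l)
    rw [sd_comm z] at z2
    omega
  have conv : ∀ {a b : V}, Conn c k R a b →
      Conn c' k (box y n \ opp 4 (zpt y n) (n / 8) k) a b := by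
    intro a b hab
    exact ((Conn.congr fun w hw => hcc w (hsub hw).1).1 hab).mono hsub2
  exact ⟨u, hu, u', hu', d0, d2, ((conv f0).symm.trans (fin.mono hbox)).trans (conv f2)⟩

theorem PK3 (hD : DUAL_stmt) (hG1 : GD1_stmt) (h30 : PP30_stmt) : PK3_stmt := by
  intro b y g a hg ha hy hb hh hz
  obtain ⟨z, hz1, hz2, hz3⟩ := hz
  have hy' : Even (y.1 + y.2) := Int.even_iff.2 hy
  obtain ⟨hG, hS⟩ := hb
  have hG' : Gate (col b) y (2 ^ a) (2 ^ (a + g)) := hG
  have hS' : Std (col b) 4 true y (2 ^ (a + g + 1)) (Dmark 4 y (2 ^ (a - 1))) := hS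
  obtain ⟨a, rfl⟩ : ∃ a', a = a' + 1 := ⟨a - 1, by omega⟩
  have e0 : a + 1 - 1 = a := by omega
  rw [e0] at hS' hz2
  have e1 : 2 ^ (a + 1) = 2 * 2 ^ a := by ring
  have e2 : 2 ^ (a + 1 + g + 1) = 2 * 2 ^ (a + 1 + g) := by ring
  have e3 : 2 ^ (a + 1) < 2 ^ (a + 1 + g) := Nat.pow_lt_pow_right (by norm_num) (by omega)
  have e4 : 2 ^ 6 ≤ 2 ^ a := Nat.pow_le_pow_right (by norm_num) (by omega)
  set c := col b
  have hcc : ∀ v, 2 ^ a ≤ sd y v → c v = rc c z false v := by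
    intro v hv
    refine (if_neg fun e => ?_).symm
    have t1 := br_eq_sd e
    have t2 := sd_triangle y z v
    rw [sd_comm] at t1
    omega
  have hGz : Gate (rc c z false) y (2 ^ (a + 1)) (2 ^ (a + 1 + g)) := by
    have hcon : ∀ {u v : V}, Conn c true (ann y (2 ^ (a + 1)) (2 ^ (a + 1 + g))) u v ↔
        Conn (rc c z false) true (ann y (2 ^ (a + 1)) (2 ^ (a + 1 + g))) u v := by
      intro u v
      exact Conn.congr fun w hw => hcc w (by have := hw.1; omega)
    unfold Gate four Three twoCl at hG' ⊢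
    simpa only [hcon] using hG'
  constructor
  · have := PK3_core h30 c c true y (2 ^ a) (2 ^ (a + 1)) (2 ^ (a + 1 + g)) (2 ^ (a + 1 + g + 1))
      hy' (by omega) (by omega) e3 (by omega) (by omega) hS' (fun _ _ => rfl) hG'.2 hh
    exact this
  · have hT : ¬ Three (PK3_d c false) y (2 ^ (a + 1)) (2 ^ (a + 1 + g)) :=
      (((hG1 c y _ _ hy' Nat.one_le_two_pow e3).2.2).2 hG').2
    have hbit : hb (PK3_d (rc c z false) false) y (2 ^ (a + 1)) (2 ^ (a + 1 + g)) := by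
      by_contra hcon
      exact hz3 ((hD (rc c z false) y _ _ hy' Nat.one_le_two_pow e3 hGz).2 hcon)
    have := PK3_core h30 c (rc c z false) false y (2 ^ a) (2 ^ (a + 1)) (2 ^ (a + 1 + g))
      (2 ^ (a + 1 + g + 1)) hy' (by omega) (by omega) e3 (by omega) (by omega) hS' hcc hT hbit
    refine ⟨z, hz1, ?_, this⟩
    omega

end TP
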