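import Pool.Agent.helper3.SP.SpecPP

/-!
# Project sp, PP1: deterministic use of the event
-/

namespace TP

open DP

theorem PP1_hcn (h11 : UJ11_stmt) {c c' : V → Bool} {x : V} {m n : ℕ} {W A B : Set V}
    (hm : 1 ≤ m) (hmn : m < n) (h4 : ¬ four c x m n) (hc : ∀ v, m ≤ sd x v → c v = c' v)
    (hW : box x n ⊆ W) (hA : ∀ u ∈ A, n ≤ sd x u) (hB : ∀ u ∈ B, n ≤ sd x u) :
    Hcn W A B c ↔ Hcn W A B c' := by
  constructor
  · rintro ⟨u, hu, v, hv, h⟩
    exact ⟨u, hu, v, hv, (h11 c c' W x u v m n hm hmn h4 hc hW (hA u hu) (hB v hv)).1 h⟩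
  · rintro ⟨u, hu, v, hv, h⟩
    exact ⟨u, hu, v, hv, (h11 c c' W x u v m n hm hmn h4 hc hW (hA u hu) (hB v hv)).2 h⟩

theorem PP1_rc {c : V → Bool} {v u : V} {k : Bool} (h : br u ≠ br v) : rc c v k u = c u :=
  if_neg h

theorem PP1 (h11 : UJ11_stmt) (h12 : UJ12_stmt) : PP1_stmt := by
  intro c x y v m₁ n₁ m₂ n₂ r R t W A B h1 h2 h3 h4 h5 h6 h7 h8 hA hB hY hH hN
  obtain ⟨g1, g2, hw, z, hz1, hz2, hz3⟩ := hY
  have hv : ∀ (c : V → Bool) (u : V), m₁ ≤ sd x u → c u = rc c v false u := by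
    intro c u hu
    refine (PP1_rc fun e => ?_).symm
    have e1 := br_eq_sd e
    have e2 := sd_triangle x v u
    rw [sd_comm] at e1
    omega
  refine ⟨⟨z, hz1, hz2, fun hc => hN ?_⟩, fun w hw1 hw2 => ?_⟩
  · have := (PP1_hcn h11 (c' := rc (rc c z false) v false) (by omega) (by omega) hz3
      (hv (rc c z false)) h8 hA hB).1 hc
    obtain ⟨u, hu, s, hs, h⟩ := this
    refine ⟨u, hu, s, hs, Conn.colour_mono (fun q _ hq => ?_) h⟩
    unfold rc at hq ⊢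
    split_ifs at hq with e1 e2
    rw [if_neg e1]
    exact hq
  · have h40 : four c x m₁ n₂ := by
      by_contra hcon
      exact hN ((PP1_hcn h11 (by omega) (by omega) hcon (hv c) h8 hA hB).1 hH)
    have h41 := hw w hw1 hw2
    obtain ⟨u, hu, s, hs, h⟩ := hH
    refine ⟨u, hu, s, hs, (h12 c (rc c w false) W x u s m₁ n₁ m₂ n₂ (by omega) h2 h4 h6 g1 g2 h40
      h41 (fun q hq => ?_) h8 (hA u hu) (hB s hs)).1 h⟩
    refine (PP1_rc fun e => ?_).symm
    have e1 := br_eq_sd e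
    have e2 := sd_triangle x w q
    have e3 := sd_triangle x q w
    have e4 : sd w q ≤ 1 := by rw [sd_comm]; exact e1
    obtain ⟨w1, w2, w3⟩ := hw2
    omega

end TP
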