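import Pool.Agent.helper3.SP.SpecPP

/-!
# Project sp, PP16: the black and the white loops are far from each other
-/

namespace TP

open DP

/-- Rectangles of the black loops, in the coordinates `α = |v.1 - x.1|`, `a = v.1 - x.1`,
`α' = |v.1 - x.1 - 32 A|`, `β = |v.2 - x.2|`. -/
def PP16_hub (α β l : ℤ) : Prop :=
  (29 * l < α ∧ α < 131 * l ∧ β < 3 * l) ∨ (125 * l < α ∧ α < 131 * l ∧ β < 131 * l) ∨
    (125 * l < α ∧ α < 259 * l ∧ 125 * l < β ∧ β < 131 * l) ∨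
      (232 * l < α ∧ α < 280 * l ∧ 104 * l < β ∧ β < 152 * l)

def PP16_out (α β l : ℤ) : Prop :=
  (29 * l < α ∧ α < 67 * l ∧ 13 * l < β ∧ β < 19 * l) ∨ (61 * l < α ∧ α < 67 * l ∧ β < 19 * l) ∨
    (61 * l < α ∧ α < 259 * l ∧ β < 3 * l) ∨ (232 * l < α ∧ α < 280 * l ∧ β < 24 * l)

def PP16_mid (a β l A B : ℤ) : Prop :=
  (29 * l < a ∧ a < 32 * A - 29 * l ∧ 13 * l < β ∧ β < 19 * l) ∨
  (32 * A + 29 * l < a ∧ a < 64 * A + 3 * l ∧ 13 * l < β ∧ β < 19 * l) ∨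
  (64 * A - 3 * l < a ∧ a < 64 * A + 3 * l ∧ 13 * l < β ∧ β < 16 * B + 3 * l) ∨
  (64 * A - 3 * l < a ∧ a < 32 * B + 3 * l ∧ 16 * B - 3 * l < β ∧ β < 16 * B + 3 * l) ∨
  (29 * B < a ∧ a < 35 * B ∧ 13 * B < β ∧ β < 19 * B) ∨
  (29 * l < -a ∧ -a < 64 * A + 3 * l ∧ 13 * l < β ∧ β < 19 * l) ∨
  (64 * A - 3 * l < -a ∧ -a < 64 * A + 3 * l ∧ 13 * l < β ∧ β < 16 * B + 3 * l) ∨
  (64 * A - 3 * l < -a ∧ -a < 32 * B + 3 * l ∧ 16 * B - 3 * l < β ∧ β < 16 * B + 3 * l) ∨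
  (29 * B < -a ∧ -a < 35 * B ∧ 13 * B < β ∧ β < 19 * B)

def PP16_hubw (α β l : ℤ) : Prop :=
  (α < 3 * l ∧ 29 * l < β ∧ β < 259 * l) ∨ (α < 24 * l ∧ 232 * l < β ∧ β < 280 * l)

def PP16_midw (a β l A B : ℤ) : Prop :=
  (-(3 * l) < a ∧ a < 3 * l ∧ 29 * l < β ∧ β < 32 * B + 3 * l) ∨
  (-(3 * l) < a ∧ a < 32 * A + 3 * l ∧ 32 * A - 3 * l < β ∧ β < 32 * A + 3 * l) ∨
  (32 * A - 3 * l < a ∧ a < 32 * A + 3 * l ∧ 29 * l < β ∧ β < 32 * A + 3 * l) ∨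
  (-(3 * B) < a ∧ a < 3 * B ∧ 29 * B < β ∧ β < 35 * B)

theorem PP16_abs (e : Bool) (t : ℤ) : |sge e * t| = |t| := by
  cases e <;> simp [sge]

theorem PP16_abs' {e : Bool} {t : ℤ} (h : 0 < sge e * t) : sge e * t = |t| := by
  rw [← PP16_abs e t, abs_of_pos h]

theorem PP16_regL {L : List (V × ℕ)} {ws : List Wire} (h : L = ws.flatMap Wire.all) {v : V}
    (hv : v ∈ regL L) : ∃ w ∈ ws, v ∈ regL w.all := by
  obtain ⟨q, hq, h1⟩ := hv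
  rw [h, List.mem_flatMap] at hq
  obtain ⟨w, hw, h2⟩ := hq
  exact ⟨w, hw, q, h2, h1⟩

theorem PP16_blk (h14 : PP14_stmt) {x v : V} {ℓ₁ ℓ S ℓ₃ : ℕ} (h1 : 1 ≤ ℓ₁) (h2 : 1 ≤ ℓ)
    (h3 : 1 ≤ ℓ₃) (hS : 16 ≤ S) {A B : ℤ} (hA : A = S * ℓ) (hB : B = S ^ 3 * ℓ)
    (hv : v ∈ regL (Lblk x ℓ₁ ℓ S ℓ₃)) :
    PP16_hub |v.1 - x.1| |v.2 - x.2| ℓ₁ ∨ PP16_hub |v.1 - x.1 - 32 * A| |v.2 - x.2| ℓ₁ ∨
      PP16_mid (v.1 - x.1) |v.2 - x.2| ℓ A B ∨ PP16_out |v.1 - x.1| |v.2 - x.2| ℓ₃ := by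
  obtain ⟨w, hw, hr⟩ := PP16_regL rfl hv
  unfold Wblk at hw
  rw [List.mem_flatMap] at hw
  obtain ⟨e, -, hw⟩ := hw
  have g1 := h14 x ℓ₁ S e h1 hS
  have g2 := h14 (yc x ℓ S) ℓ₁ S e h1 hS
  have g3 := h14 x ℓ S e h2 hS
  have g4 := h14 x ℓ₃ S e h3 hS
  have e1 : (32 * S * ℓ : ℤ) = 32 * A := by rw [hA]; ring
  have e2 : (64 * S * ℓ : ℤ) = 64 * A := by rw [hA]; ring
  have e3 : (16 * S ^ 3 * ℓ : ℤ) = 16 * B := by rw [hB]; ring
  have e4 : (29 * S ^ 3 * ℓ : ℤ) = 29 * B := by rw [hB]; ring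
  have e5 : (35 * S ^ 3 * ℓ : ℤ) = 35 * B := by rw [hB]; ring
  have e6 : (13 * S ^ 3 * ℓ : ℤ) = 13 * B := by rw [hB]; ring
  have e7 : (19 * S ^ 3 * ℓ : ℤ) = 19 * B := by rw [hB]; ring
  have e8 : (32 * S ^ 3 * ℓ : ℤ) = 32 * B := by rw [hB]; ring
  have p1 : (1 : ℤ) ≤ ℓ₁ := by exact_mod_cast h1
  have p2 : (1 : ℤ) ≤ ℓ := by exact_mod_cast h2
  have p3 : (1 : ℤ) ≤ ℓ₃ := by exact_mod_cast h3
  have pA : 16 * (ℓ : ℤ) ≤ A := by
    rw [hA]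
    have : (16 : ℤ) ≤ S := by exact_mod_cast hS
    nlinarith
  have pB : A ≤ B := by
    rw [hA, hB]
    have : (1 : ℤ) ≤ S := by exact_mod_cast (show 1 ≤ S by omega)
    have h4 : (S : ℤ) ≤ S ^ 3 := le_self_pow₀ this (by norm_num)
    nlinarith
  simp only [List.mem_cons, List.not_mem_nil, or_false] at hw
  rcases hw with rfl | rfl | rfl | rfl | rfl | rfl
  · left
    have := g1.1 v hr
    unfold PP16_hub
    rcases this with ⟨a1, a2, a3⟩ | ⟨a1, a2, a3⟩ | ⟨a1, a2, a3, a4⟩ | ⟨a1, a2, a3, a4⟩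
    all_goals
      have q := PP16_abs' (e := e) (t := v.1 - x.1) (by omega)
      rw [q] at a1 a2
    · left; exact ⟨a1, a2, a3⟩
    · right; left; exact ⟨a1, a2, a3⟩
    · right; right; left; exact ⟨a1, a2, a3, a4⟩
    · right; right; right; exact ⟨a1, a2, a3, a4⟩
  · right; left
    have := g2.1 v hr
    have ey : v.1 - (yc x ℓ S).1 = v.1 - x.1 - 32 * A := by
      simp only [yc]
      rw [← e1]
      ring
    have ey2 : (yc x ℓ S).2 = x.2 := rfl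
    rw [ey, ey2] at this
    unfold PP16_hub
    rcases this with ⟨a1, a2, a3⟩ | ⟨a1, a2, a3⟩ | ⟨a1, a2, a3, a4⟩ | ⟨a1, a2, a3, a4⟩
    all_goals
      have q := PP16_abs' (e := e) (t := v.1 - x.1 - 32 * A) (by omega)
      rw [q] at a1 a2
    · left; exact ⟨a1, a2, a3⟩
    · right; left; exact ⟨a1, a2, a3⟩
    · right; right; left; exact ⟨a1, a2, a3, a4⟩
    · right; right; right; exact ⟨a1, a2, a3, a4⟩
  · right; right; left
    obtain ⟨a1, a2, a3, a4⟩ := g3.2.2.1 v hr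
    have q := PP16_abs' (e := e) (t := v.2 - x.2) (by omega)
    rw [q] at a3 a4
    rw [e1] at a2
    exact Or.inl ⟨a1, a2, a3, a4⟩
  · right; right; left
    have := g3.2.2.2.1 v hr
    rw [e1, e2, e3, e4, e5, e6, e7, e8] at this
    unfold PP16_mid
    rcases this with ⟨a1, a2, a3, a4⟩ | ⟨a1, a2, a3, a4⟩ | ⟨a1, a2, a3, a4⟩ | ⟨a1, a2, a3, a4⟩
    all_goals
      have q := PP16_abs' (e := e) (t := v.2 - x.2) (by omega)
      rw [q] at a3 a4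
    · right; left; exact ⟨a1, a2, a3, a4⟩
    · right; right; left; exact ⟨a1, a2, a3, a4⟩
    · right; right; right; left; exact ⟨a1, a2, a3, a4⟩
    · right; right; right; right; left; exact ⟨a1, a2, a3, a4⟩
  · right; right; left
    have := g3.2.2.2.2 v hr
    rw [e2, e3, e4, e5, e6, e7, e8] at this
    unfold PP16_mid
    rcases this with ⟨a1, a2, a3, a4⟩ | ⟨a1, a2, a3, a4⟩ | ⟨a1, a2, a3, a4⟩ | ⟨a1, a2, a3, a4⟩
    all_goals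
      have q := PP16_abs' (e := e) (t := v.2 - x.2) (by omega)
      rw [q] at a3 a4
    · right; right; right; right; right; left; exact ⟨by omega, by omega, a3, a4⟩
    · right; right; right; right; right; right; left; exact ⟨by omega, by omega, a3, a4⟩
    · right; right; right; right; right; right; right; left; exact ⟨by omega, by omega, a3, a4⟩
    · right; right; right; right; right; right; right; right; exact ⟨by omega, by omega, a3, a4⟩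
  · right; right; right
    have := g4.2.1 v hr
    unfold PP16_out
    rcases this with ⟨a1, a2, a3, a4⟩ | ⟨a1, a2, a3⟩ | ⟨a1, a2, a3⟩ | ⟨a1, a2, a3⟩
    all_goals
      have q := PP16_abs' (e := e) (t := v.1 - x.1) (by omega)
      rw [q] at a1 a2
    · left; exact ⟨a1, a2, a3, a4⟩
    · right; left; exact ⟨a1, a2, a3⟩
    · right; right; left; exact ⟨a1, a2, a3⟩
    · right; right; right; exact ⟨a1, a2, a3⟩

theorem PP16_wht (h15 : PP15_stmt) {x v : V} {ℓ₁ ℓ S ℓ₃ : ℕ} (h1 : 1 ≤ ℓ₁) (h2 : 1 ≤ ℓ)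
    (h3 : 1 ≤ ℓ₃) (hS : 16 ≤ S) {A B : ℤ} (hA : A = S * ℓ) (hB : B = S ^ 3 * ℓ)
    (hv : v ∈ regL (Lwht x ℓ₁ ℓ S ℓ₃)) :
    PP16_hubw |v.1 - x.1| |v.2 - x.2| ℓ₁ ∨ PP16_hubw |v.1 - x.1 - 32 * A| |v.2 - x.2| ℓ₁ ∨
      PP16_midw (v.1 - x.1) |v.2 - x.2| ℓ A B ∨ PP16_hubw |v.1 - x.1| |v.2 - x.2| ℓ₃ := by
  obtain ⟨w, hw, hr⟩ := PP16_regL rfl hv
  unfold Wwht at hw
  rw [List.mem_flatMap] at hw
  obtain ⟨e, -, hw⟩ := hw
  have g1 := h15 x ℓ₁ S e h1 hS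
  have g2 := h15 (yc x ℓ S) ℓ₁ S e h1 hS
  have g3 := h15 x ℓ S e h2 hS
  have g4 := h15 x ℓ₃ S e h3 hS
  have e1 : (32 * S * ℓ : ℤ) = 32 * A := by rw [hA]; ring
  have e4 : (29 * S ^ 3 * ℓ : ℤ) = 29 * B := by rw [hB]; ring
  have e5 : (35 * S ^ 3 * ℓ : ℤ) = 35 * B := by rw [hB]; ring
  have e6 : (3 * S ^ 3 * ℓ : ℤ) = 3 * B := by rw [hB]; ring
  have e8 : (32 * S ^ 3 * ℓ : ℤ) = 32 * B := by rw [hB]; ring
  have p1 : (1 : ℤ) ≤ ℓ₁ := by exact_mod_cast h1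
  have p2 : (1 : ℤ) ≤ ℓ := by exact_mod_cast h2
  have p3 : (1 : ℤ) ≤ ℓ₃ := by exact_mod_cast h3
  have pA : 16 * (ℓ : ℤ) ≤ A := by
    rw [hA]
    have : (16 : ℤ) ≤ S := by exact_mod_cast hS
    nlinarith
  have pB : A ≤ B := by
    rw [hA, hB]
    have : (1 : ℤ) ≤ S := by exact_mod_cast (show 1 ≤ S by omega)
    have h4 : (S : ℤ) ≤ S ^ 3 := le_self_pow₀ this (by norm_num)
    nlinarith
  simp only [List.mem_cons, List.not_mem_nil, or_false] at hw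
  rcases hw with rfl | rfl | rfl | rfl
  · left
    have := g1.1 v hr
    unfold PP16_hubw
    rcases this with ⟨a1, a2, a3⟩ | ⟨a1, a2, a3⟩
    all_goals
      have q := PP16_abs' (e := e) (t := v.2 - x.2) (by omega)
      rw [q] at a2 a3
    · left; exact ⟨a1, a2, a3⟩
    · right; exact ⟨a1, a2, a3⟩
  · right; left
    have := g2.1 v hr
    have ey : v.1 - (yc x ℓ S).1 = v.1 - x.1 - 32 * A := by
      simp only [yc]
      rw [← e1]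
      ring
    have ey2 : (yc x ℓ S).2 = x.2 := rfl
    rw [ey, ey2] at this
    unfold PP16_hubw
    rcases this with ⟨a1, a2, a3⟩ | ⟨a1, a2, a3⟩
    all_goals
      have q := PP16_abs' (e := e) (t := v.2 - x.2) (by omega)
      rw [q] at a2 a3
    · left; exact ⟨a1, a2, a3⟩
    · right; exact ⟨a1, a2, a3⟩
  · right; right; left
    have := g3.2 v hr
    rw [e1, e4, e5, e6, e8] at this
    unfold PP16_midw
    rcases this with ⟨a1, a2, a3⟩ | ⟨a0, a1, a2, a3⟩ | ⟨a0, a1, a2, a3⟩ | ⟨a1, a2, a3⟩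
    all_goals
      have q := PP16_abs' (e := e) (t := v.2 - x.2) (by omega)
      rw [q] at a2 a3
    · rw [abs_lt] at a1
      left; exact ⟨a1.1, a1.2, a2, a3⟩
    · right; left; exact ⟨by omega, a1, a2, a3⟩
    · right; right; left; exact ⟨a0, a1, a2, a3⟩
    · rw [abs_lt] at a1
      right; right; right; exact ⟨a1.1, a1.2, a2, a3⟩
  · right; right; right
    have := g4.1 v hr
    unfold PP16_hubw
    rcases this with ⟨a1, a2, a3⟩ | ⟨a1, a2, a3⟩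
    all_goals
      have q := PP16_abs' (e := e) (t := v.2 - x.2) (by omega)
      rw [q] at a2 a3
    · left; exact ⟨a1, a2, a3⟩
    · right; exact ⟨a1, a2, a3⟩

theorem PP16_row {v w : V} (h : br v = br w) :
    v.2 = w.2 ∧ (v.1 = w.1 ∨ v.1 = w.1 + 1 ∨ w.1 = v.1 + 1) := by
  have h1 := br_snd v
  have h2 := br_snd w
  rw [h] at h1
  have h3 := br_fst v
  have h4 := br_fst w
  rw [h] at h3
  omega

theorem PP16_par {m₀ n₀ ℓ₁ ℓ S ℓ₃ : ℕ} (hP : ParC m₀ n₀ ℓ₁ ℓ S ℓ₃) :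
    ∃ A B : ℤ, A = S * ℓ ∧ B = S ^ 3 * ℓ ∧ 16 ≤ (ℓ₁ : ℤ) ∧ 64 * (ℓ₁ : ℤ) ≤ ℓ ∧ 16 * (ℓ : ℤ) ≤ A ∧
      256 * A ≤ B ∧ 64 * B ≤ ℓ₃ := by
  obtain ⟨h1, h2, h3, h4, h5, h6⟩ := hP
  have q4 : (16 : ℤ) ≤ S := by exact_mod_cast h4
  refine ⟨_, _, rfl, rfl, ?_, by exact_mod_cast h3, ?_, ?_, by exact_mod_cast h5⟩
  · have : 16 ≤ ℓ₁ := by omega
    exact_mod_cast this
  · nlinarith
  · have h7 : (256 : ℤ) ≤ S ^ 2 := by nlinarith
    have h8 : (0 : ℤ) ≤ S * ℓ := by positivity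
    have h9 : (S : ℤ) ^ 3 * ℓ = S ^ 2 * (S * ℓ) := by ring
    rw [h9]
    exact mul_le_mul_of_nonneg_right h7 h8

theorem PP16 (h14 : PP14_stmt) (h15 : PP15_stmt) : PP16_stmt := by
  intro x m₀ n₀ ℓ₁ ℓ S ℓ₃ hP v hv w hw hbr
  obtain ⟨A, B, hA, hB, p1, p2, p3, p4, p5⟩ := PP16_par hP
  have q1 : 1 ≤ ℓ₁ := by omega
  have q2 : 1 ≤ ℓ := by omega
  have q3 : 1 ≤ ℓ₃ := by omega
  have hS : 16 ≤ S := hP.2.2.2.1
  have b1 := PP16_blk h14 q1 q2 q3 hS hA hB hv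
  have w1 := PP16_wht h15 q1 q2 q3 hS hA hB hw
  obtain ⟨r1, r2⟩ := PP16_row hbr
  rw [← r1] at w1
  set a := v.1 - x.1 with ha
  have hw1 : w.1 - x.1 = a ∨ w.1 - x.1 = a - 1 ∨ w.1 - x.1 = a + 1 := by omega
  set a' := w.1 - x.1
  set β := |v.2 - x.2|
  have s1 : |a| = a ∨ |a| = -a := abs_choice a
  have s2 : |a'| = a' ∨ |a'| = -a' := abs_choice a'
  have s3 : |a - 32 * A| = a - 32 * A ∨ |a - 32 * A| = -(a - 32 * A) := abs_choice _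
  have s4 : |a' - 32 * A| = a' - 32 * A ∨ |a' - 32 * A| = -(a' - 32 * A) := abs_choice _
  have s5 := abs_nonneg a
  have s6 := abs_nonneg a'
  have s7 := abs_nonneg (a - 32 * A)
  have s8 := abs_nonneg (a' - 32 * A)
  generalize |a| = α at *
  generalize |a'| = α' at *
  generalize |a - 32 * A| = γ at *
  generalize |a' - 32 * A| = γ' at *
  generalize (ℓ₁ : ℤ) = l₁ at *
  generalize (ℓ : ℤ) = l at *
  generalize (ℓ₃ : ℤ) = l₃ at *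
  clear_value a a' β
  clear hv hw hbr hA hB hP
  unfold PP16_hub PP16_mid PP16_out at b1
  unfold PP16_hubw PP16_midw at w1
  rcases b1 with b1 | b1 | b1 | b1 <;> rcases w1 with w1 | w1 | w1 | w1 <;> omega

end TP
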