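import Pool.Agent.helper49.SP.PP16

/-!
# Project sp, PP18: the arms of the blocks with four arms avoid the loops of the other colour
-/

namespace TP

open DP

/-- A site near the standard point `(x.1 + p, x.2 + q)` is in `opp`. -/
theorem PP18_opp {x u : V} {n A : ℕ} {k : Bool} (i : ℕ) (hi : i < 4) (hk : kol i ≠ k)
    (h : sd (zpt x n i) u ≤ A) : u ∈ opp 4 (zpt x n) A k := ⟨i, hi, hk, h⟩

theorem PP18 (h14 : PP14_stmt) (h15 : PP15_stmt) : PP18_stmt := by
  intro x m₀ n₀ ℓ₁ ℓ S ℓ₃ k hP
  obtain ⟨A, B, hA, hB, p1, p2, p3, p4, p5⟩ := PP16_par hP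
  have q1 : 1 ≤ ℓ₁ := by omega
  have q2 : 1 ≤ ℓ := by omega
  have q3 : 1 ≤ ℓ₃ := by omega
  have hS : 16 ≤ S := hP.2.2.2.1
  have hy1 : (yc x ℓ S).1 = x.1 + 32 * A := by
    simp only [yc]
    rw [hA]
    ring
  have hy2 : (yc x ℓ S).2 = x.2 := rfl
  -- a common argument
  have key : ∀ (u v : V), br u = br v → v ∈ regL (Lcol (!k) x ℓ₁ ℓ S ℓ₃) →
      (sd x u ≤ 32 * ℓ₁ → u ∈ opp 4 (zpt x (32 * ℓ₁)) (4 * ℓ₁) k) ∧
      (sd (yc x ℓ S) u ≤ 32 * ℓ₁ → u ∈ opp 4 (zpt (yc x ℓ S) (32 * ℓ₁)) (4 * ℓ₁) k) ∧
      (256 * ℓ₃ ≤ sd x u → u ∈ opp 4 (zpt x (256 * ℓ₃)) (32 * ℓ₃) k) := by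
    intro u v hbr hv
    obtain ⟨r1, r2⟩ := PP16_row hbr
    have s1 : |v.1 - x.1| = v.1 - x.1 ∨ |v.1 - x.1| = -(v.1 - x.1) := abs_choice _
    have s2 : |v.1 - x.1 - 32 * A| = v.1 - x.1 - 32 * A ∨
      |v.1 - x.1 - 32 * A| = -(v.1 - x.1 - 32 * A) := abs_choice _
    have s3 : |v.2 - x.2| = v.2 - x.2 ∨ |v.2 - x.2| = -(v.2 - x.2) := abs_choice _
    have s4 := abs_nonneg (v.1 - x.1)
    have s5 := abs_nonneg (v.1 - x.1 - 32 * A)
    have s6 := abs_nonneg (v.2 - x.2)
    cases k with
    | true =>
      have w1 := PP16_wht h15 q1 q2 q3 hS hA hB hv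
      generalize |v.1 - x.1| = α at *
      generalize |v.1 - x.1 - 32 * A| = γ at *
      generalize |v.2 - x.2| = β at *
      clear hv hbr h14 h15 hP
      unfold PP16_hubw PP16_midw at w1
      refine ⟨fun h => ?_, fun h => ?_, fun h => ?_⟩
      · by_cases hs : x.2 ≤ u.2
        · refine PP18_opp 1 (by norm_num) (by decide) ?_
          unfold sd at h ⊢
          simp only [zpt]
          norm_num
          rcases w1 with w1 | w1 | w1 | w1 <;> omega
        · refine PP18_opp 3 (by norm_num) (by decide) ?_
          unfold sd at h ⊢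
          simp only [zpt]
          norm_num
          rcases w1 with w1 | w1 | w1 | w1 <;> omega
      · by_cases hs : x.2 ≤ u.2
        · refine PP18_opp 1 (by norm_num) (by decide) ?_
          unfold sd at h ⊢
          rw [hy1, hy2] at h
          simp only [zpt]
          norm_num
          rw [hy1, hy2]
          rcases w1 with w1 | w1 | w1 | w1 <;> omega
        · refine PP18_opp 3 (by norm_num) (by decide) ?_
          unfold sd at h ⊢
          rw [hy1, hy2] at h
          simp only [zpt]
          norm_num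
          rw [hy1, hy2]
          rcases w1 with w1 | w1 | w1 | w1 <;> omega
      · by_cases hs : x.2 ≤ u.2
        · refine PP18_opp 1 (by norm_num) (by decide) ?_
          unfold sd at h ⊢
          simp only [zpt]
          norm_num
          rcases w1 with w1 | w1 | w1 | w1 <;> omega
        · refine PP18_opp 3 (by norm_num) (by decide) ?_
          unfold sd at h ⊢
          simp only [zpt]
          norm_num
          rcases w1 with w1 | w1 | w1 | w1 <;> omega
    | false =>
      have w1 := PP16_blk h14 q1 q2 q3 hS hA hB hv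
      generalize |v.1 - x.1| = α at *
      generalize |v.1 - x.1 - 32 * A| = γ at *
      generalize |v.2 - x.2| = β at *
      clear hv hbr h14 h15 hP
      unfold PP16_hub PP16_mid PP16_out at w1
      refine ⟨fun h => ?_, fun h => ?_, fun h => ?_⟩
      · by_cases hs : x.1 ≤ u.1
        · refine PP18_opp 0 (by norm_num) (by decide) ?_
          unfold sd at h ⊢
          simp only [zpt]
          norm_num
          rcases w1 with w1 | w1 | w1 | w1 <;> omega
        · refine PP18_opp 2 (by norm_num) (by decide) ?_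
          unfold sd at h ⊢
          simp only [zpt]
          norm_num
          rcases w1 with w1 | w1 | w1 | w1 <;> omega
      · by_cases hs : x.1 + 32 * A ≤ u.1
        · refine PP18_opp 0 (by norm_num) (by decide) ?_
          unfold sd at h ⊢
          rw [hy1, hy2] at h
          simp only [zpt]
          norm_num
          rw [hy1, hy2]
          rcases w1 with w1 | w1 | w1 | w1 <;> omega
        · refine PP18_opp 2 (by norm_num) (by decide) ?_
          unfold sd at h ⊢
          rw [hy1, hy2] at h
          simp only [zpt]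
          norm_num
          rw [hy1, hy2]
          rcases w1 with w1 | w1 | w1 | w1 <;> omega
      · by_cases hs : x.1 ≤ u.1
        · refine PP18_opp 0 (by norm_num) (by decide) ?_
          unfold sd at h ⊢
          simp only [zpt]
          norm_num
          rcases w1 with w1 | w1 | w1 | w1 <;> omega
        · refine PP18_opp 2 (by norm_num) (by decide) ?_
          unfold sd at h ⊢
          simp only [zpt]
          norm_num
          rcases w1 with w1 | w1 | w1 | w1 <;> omega
  refine ⟨fun u hu v hv hbr => hu.2 ((key u v hbr hv).1 hu.1),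
    fun u hu v hv hbr => hu.2 ((key u v hbr hv).2.1 hu.1),
    fun u hu v hv hbr => hu.2 ((key u v hbr hv).2.2 hu.1)⟩

end TP
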