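import Pool.Agent.helper3.SP.SpecPP

/-!
# Project sp, PP2: the crossing and the pivotal sites as connection events
-/

namespace TP

open DP

theorem PP2_mon (i : ℕ) : Mon true (Fc i) := by
  refine Mon.ev ?_
  rintro c c' h ⟨u, v, hu, hv, hcon⟩
  exact ⟨u, v, hu, hv, hcon.colour_mono fun w _ => h w⟩

theorem PP2_fl {c : V → Bool} {W A B : Set V} :
    Hcn W A B (fl c) ↔ ∃ u ∈ A, ∃ v ∈ B, Conn c false W u v := by
  have h : ∀ u v : V, Conn (fl c) true W u v ↔ Conn c false W u v := by
    intro u v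
    unfold Conn
    have : {w | w ∈ W ∧ fl c w = true} = {w | w ∈ W ∧ c w = false} := by
      ext w
      simp [fl]
    rw [this]
  unfold Hcn
  simp only [h]

theorem PP2_hv (hHX : HX_stmt) (hRC : RC_stmt) (c : V → Bool) (i : ℕ) :
    ¬ hcross c true 1 (2 * 2 ^ i) 0 (hh (2 ^ i)) ↔
      Hcn (rect 1 (2 * 2 ^ i) 0 (hh (2 ^ i))) {u | u.2 = 0} {u | u.2 = hh (2 ^ i)} (fl c) := by
  rw [PP2_fl]
  constructor
  · intro h
    have h1 : (1 : ℤ) ≤ 2 * 2 ^ i := by
      have : (1 : ℤ) ≤ 2 ^ i := one_le_pow₀ (by norm_num)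
      linarith
    rcases hHX c true 1 (2 * 2 ^ i) 0 (hh (2 ^ i)) h1 (by positivity) with h2 | h2
    · exact absurd h2 h
    · obtain ⟨u, v, hu, hv, h3⟩ := h2
      exact ⟨u, hu, v, hv, h3⟩
  · rintro ⟨u', hu', v', hv', h'⟩ ⟨u, v, hu, hv, h⟩
    obtain ⟨w, hw1, hw2⟩ := hRC 1 (2 * 2 ^ i) 0 (hh (2 ^ i)) _ _ (fun w hw => hw.1)
      (fun w hw => hw.1) u v u' v' hu hv hu' hv' h h'
    have e1 := hw1.2
    rw [hw2.2] at e1
    exact Bool.noConfusion e1

theorem PP2_h (i : ℕ) (b : V → Bool) : b ∈ Fc i ↔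
    Hcn (rect 1 (2 * 2 ^ i) 0 (hh (2 ^ i))) {u | u.1 = 1} {u | u.1 = 2 * 2 ^ i} (col b) := by
  constructor
  · rintro ⟨u, v, hu, hv, h⟩
    exact ⟨u, hu, v, hv, h⟩
  · rintro ⟨u, hu, v, hv, h⟩
    exact ⟨u, v, hu, hv, h⟩

theorem PP2_col {b : V → Bool} {v : V} (hv : (v.1 + v.2) % 2 = 0) (k : Bool) :
    col (Function.update b v k) = rc (col b) v k := by
  funext w
  unfold col rc
  rw [br_of_even hv]
  by_cases h : br w = v
  · rw [if_pos h, h, Function.update_self]
  · rw [if_neg h, Function.update_of_ne h]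

theorem PP2 (hHX : HX_stmt) (hRC : RC_stmt) : PP2_stmt := by
  intro i b v hv
  have hev : (v.1 + v.2) % 2 = 0 := by
    unfold VV at hv
    exact (Finset.mem_filter.1 hv).2
  have p1 := PP2_h i b
  have hmon := PP2_mon i
  have p2 : ∀ b : V → Bool, b ∉ Fc i ↔
      Hcn (rect 1 (2 * 2 ^ i) 0 (hh (2 ^ i))) {u | u.2 = 0} {u | u.2 = hh (2 ^ i)}
        (fl (col b)) := fun b => PP2_hv hHX hRC (col b) i
  refine ⟨p1, p2 b, fun hb => ?_, fun hb => ?_⟩
  · have q : v ∈ PV i b ↔ Function.update b v false ∉ Fc i := by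
      constructor
      · rintro ⟨-, b', b'', h1, h2, h3⟩ h4
        refine h3 (hmon _ _ (fun w hw => ?_) h4)
        by_cases e : w = v
        · subst e
          rw [Function.update_self] at hw
          exact Bool.noConfusion hw
        · rw [Function.update_of_ne e] at hw
          rw [(h1 w e).2]
          exact hw
      · intro h
        exact ⟨hv, b, Function.update b v false, fun w hw => ⟨rfl, Function.update_of_ne hw _ _⟩,
          hb, h⟩
    rw [q, PP2_h, PP2_col hev]
  · have q : v ∈ PV i b ↔ Function.update b v true ∈ Fc i := by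
      constructor
      · rintro ⟨-, b', b'', h1, h2, h3⟩
        refine hmon _ _ (fun w hw => ?_) h2
        by_cases e : w = v
        · subst e
          rw [Function.update_self]
        · rw [Function.update_of_ne e, ← (h1 w e).1]
          exact hw
      · intro h
        exact ⟨hv, Function.update b v true, b, fun w hw => ⟨Function.update_of_ne hw _ _, rfl⟩,
          h, hb⟩
    rw [q]
    have := p2 (Function.update b v true)
    rw [PP2_col hev] at this
    have e : fl (rc (col b) v true) = rc (fl (col b)) v false := by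
      funext w
      unfold fl rc
      split_ifs <;> rfl
    rw [e] at this
    rw [← this, not_not]

end TP
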