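import Pool.Agent.helper49.SP.Defs

/-!
# Project sp, part AS: tests and assembly (from the interface statements to `CRIT_stmt`)

Units: `u = 2 ^ t`, `t = i - e`. Centres `x = (a u, b u)`, `a`, `b` even. The scale number `l` is
`p_l = t + k₁ + l * (m + 3 s)`, so `2 ^ p_l = 2 ^ (k₁ + l * (m + 3 s)) u`.
-/

namespace TP

open DP MeasureTheory

/-! ## Forms -/

/-- Closed box of radius one unit around the centre `(a, b)` (in units) is hit. -/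
def fHit (z : ℤ × ℤ) : Form := .hit (z.1 - 1) (z.1 + 1) (z.2 - 1) (z.2 + 1)

/-- The open annulus with radii `r < R` (in units) around `z` is missed. -/
def fGap (z : ℤ × ℤ) (r R : ℤ) : Form :=
  .and (.and (.miss (z.1 - R) (z.1 - r) (z.2 - R) (z.2 + R))
    (.miss (z.1 + r) (z.1 + R) (z.2 - R) (z.2 + R)))
    (.and (.miss (z.1 - R) (z.1 + R) (z.2 - R) (z.2 - r))
      (.miss (z.1 - R) (z.1 + R) (z.2 + r) (z.2 + R)))

/-- Not the weak pair pattern: the open box of radius `r` around `y` is missed, or one of five closed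
rectangles is hit. `y = z + (d, 0)` for `h = true` and `z + (0, d)` for `h = false`. -/
def fNP (z : ℤ × ℤ) (h : Bool) (r d R : ℤ) : Form :=
  if h = true then
    .or (.miss (z.1 + d - r) (z.1 + d + r) (z.2 - r) (z.2 + r))
      (.or (.or (.hit (z.1 - R) (z.1 + R) (z.2 + r) (z.2 + R))
        (.hit (z.1 - R) (z.1 + R) (z.2 - R) (z.2 - r)))
        (.or (.hit (z.1 - R) (z.1 - r) (z.2 - R) (z.2 + R))
          (.or (.hit (z.1 + r) (z.1 + d - r) (z.2 - R) (z.2 + R))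
            (.hit (z.1 + d + r) (z.1 + R) (z.2 - R) (z.2 + R)))))
  else
    .or (.miss (z.1 - r) (z.1 + r) (z.2 + d - r) (z.2 + d + r))
      (.or (.or (.hit (z.1 + r) (z.1 + R) (z.2 - R) (z.2 + R))
        (.hit (z.1 - R) (z.1 - r) (z.2 - R) (z.2 + R)))
        (.or (.hit (z.1 - R) (z.1 + R) (z.2 - R) (z.2 - r))
          (.or (.hit (z.1 - R) (z.1 + R) (z.2 + r) (z.2 + d - r))
            (.hit (z.1 - R) (z.1 + R) (z.2 + d + r) (z.2 + R)))))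

/-- At least `T` of the forms of the list. -/
def fCount : List Form → ℕ → Form
  | _, 0 => .tt
  | [], _ + 1 => .ff
  | φ :: L, T + 1 => .or (.and φ (fCount L T)) (fCount L (T + 1))

/-- Disjunction and conjunction of lists. -/
def fOr : List Form → Form
  | [] => .ff
  | φ :: L => .or φ (fOr L)

def fAnd : List Form → Form
  | [] => .tt
  | φ :: L => .and φ (fAnd L)

open Classical in
/-- F1. Semantics of counts, disjunctions and conjunctions. Induction on the list. -/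
def F1_stmt : Prop :=
  ∀ (u : ℕ) (X : Set V),
    (∀ (L : List Form) (T : ℕ), (satC u X (fCount L T) ↔ T ≤ L.countP fun φ => decide (satC u X φ)) ∧
      (satO u X (fCount L T) ↔ T ≤ L.countP fun φ => decide (satO u X φ))) ∧
    (∀ L : List Form, (satC u X (fOr L) ↔ ∃ φ ∈ L, satC u X φ) ∧
      (satO u X (fOr L) ↔ ∃ φ ∈ L, satO u X φ)) ∧
    ∀ L : List Form, (satC u X (fAnd L) ↔ ∀ φ ∈ L, satC u X φ) ∧
      (satO u X (fAnd L) ↔ ∀ φ ∈ L, satO u X φ)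

/-- F2. Semantics of `fHit`, `fGap` (`z` the centre in units, `x = u z`). Arithmetic (`sd_le_iff`,
nonlinear products `a * u`: introduce `u z`, `u r`, `u R` as new variables). -/
def F2_stmt : Prop :=
  ∀ (u : ℕ) (X : Set V) (z : ℤ × ℤ) (x : V), 1 ≤ u → x = (z.1 * u, z.2 * u) →
    (satC u X (fHit z) ↔ ∃ v ∈ X, sd x v ≤ u) ∧ (satO u X (fHit z) → ∃ v ∈ X, sd x v ≤ 2 * u) ∧
    ∀ r R : ℕ, 2 ≤ r → 2 * r + 2 ≤ R →
      (satC u X (fGap z r R) ↔ ∀ v ∈ X, ¬ (r * u < sd x v ∧ sd x v < R * u)) ∧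
      (satO u X (fGap z r R) → ∀ v ∈ X, ¬ (2 * r * u ≤ sd x v + 1 ∧ 2 * sd x v ≤ R * u + 2))

/-- F3. Semantics of `fNP`. -/
def ASF3_stmt : Prop :=
  ∀ (u : ℕ) (X : Set V) (z : ℤ × ℤ) (x : V) (h : Bool) (r d R : ℕ), 1 ≤ u →
    x = (z.1 * u, z.2 * u) → 1 ≤ r → 8 * r ≤ d → 4 * d ≤ R →
      (satC u X (fNP z h (2 * r) d R) ↔ ¬ ((∃ v ∈ X, sd (yy h x (d * u)) v < 2 * r * u) ∧
        ∀ v ∈ X, v ∉ WW x (yy h x (d * u)) (2 * r * u) (R * u))) ∧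
      (satO u X (fNP z h (2 * r) d R) → ¬ ((∃ v ∈ X, sd (yy h x (d * u)) v ≤ r * u) ∧
        ∀ v ∈ X, v ∉ WS x (yy h x (d * u)) (r * u) (2 * R * u)))

/-! ## Probability of tests -/

/-- B1. `PS i` is monotone and subadditive, values in `[0, 1]` given Parseval. -/
def B1_stmt : Prop :=
  PAR_stmt → ∀ (i : ℕ), (∀ A B : Set V → Prop, (∀ X, A X → B X) → PS i A ≤ PS i B) ∧
    (∀ A B : Set V → Prop, PS i (fun X => A X ∨ B X) ≤ PS i A + PS i B) ∧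
    (∀ A : Set V → Prop, 0 ≤ PS i A ∧ PS i A ≤ 1) ∧
    (∀ A : Set V → Prop, PS i (fun X => ¬ A X) = 1 - PS i A) ∧
    ∀ (ι : Type) (s : Finset ι) (A : ι → Set V → Prop),
      PS i (fun X => ∃ j ∈ s, A j X) ≤ ∑ j ∈ s, PS i (A j)

/-- B2. The same for the pivotal set. -/
def B2_stmt : Prop :=
  ∀ (i : ℕ), (∀ A B : Set V → Prop, (∀ X, A X → B X) → PPv i A ≤ PPv i B) ∧
    (∀ A B : Set V → Prop, PPv i (fun X => A X ∨ B X) ≤ PPv i A + PPv i B) ∧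
    (∀ A : Set V → Prop, 0 ≤ PPv i A ∧ PPv i A ≤ 1)

open Classical in
/-- B3. Markov's inequality for counts (both laws). For `PPv` the events depend on finitely many coins
only (`Fc i` is local), hence are measurable. -/
def B3_stmt : Prop :=
  ∀ (i : ℕ) (G : Finset V) (A : V → Set V → Prop) (T : ℝ), 0 < T →
    PS i (fun X => T ≤ ((G.filter fun x => A x X).card : ℝ)) ≤ (∑ x ∈ G, PS i (A x)) / T ∧
    PPv i (fun X => T ≤ ((G.filter fun x => A x X).card : ℝ)) ≤ (∑ x ∈ G, PPv i (A x)) / T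

/-- B4. Number of centres; they are multiples of two units; `1 ≤ k` and `t + 1 ≤ i` . -/
def B4_stmt : Prop :=
  ∀ (i k e : ℕ), e ≤ i → 1 ≤ e → ((GB i k (i - e)).card : ℝ) ≤ 16 * 4 ^ e ∧
    ∀ x ∈ GB i k (i - e), ∃ z : ℤ × ℤ, x = (z.1 * (2 ^ (i - e) : ℕ), z.2 * (2 ^ (i - e) : ℕ)) ∧
      0 ≤ z.1 ∧ z.1 ≤ 2 * 2 ^ e ∧ 0 ≤ z.2 ∧ z.2 ≤ 2 * 2 ^ e ∧ (x.1 + x.2) % 2 = 0

/-- The test: at least `T` of the centres `z ∈ G` (a list without repetitions, in units) are hit and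
satisfy `ψ z`. -/
def TEST (G : List (ℤ × ℤ)) (ψ : ℤ × ℤ → Form) (T : ℕ) : Form :=
  fCount (G.map fun z => .and (fHit z) (ψ z)) T

/-- M1. The threshold argument. `u = 2 ^ (i - e)`; `NN = 4 ^ e * a4 (i - e) (i - k)`. With `G` the list
of the centres (in units) and `T` the ceiling of `κ NN / 2`:
spectral sample: off `X = ∅`, off `U3`, off `#{x : hit, not ψ} ≥ κ NN / 2` (Markov, probability at most
`16 * 4 ^ e * δ a4 / (κ NN / 2) = 32 δ / κ`) the number of `x` hit with `ψ` is `> κ NN / 2`, hence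
`≥ T` (integer); pivotal set: Markov. (`F1`, `F2`, `B1` - `B4`.) -/
def M1_stmt : Prop :=
  ∀ (i k e : ℕ) (κ δ η : ℝ) (ψ : ℤ × ℤ → Form), e ≤ i → 1 ≤ e → 0 < κ → 0 < δ → 0 < η →
    0 < a4 (i - e) (i - k) →
    PS i (fun X => ¬ X.Nonempty) ≤ η →
    PS i (fun X => X.Nonempty ∧
      (Nat.card {x // x ∈ GB i k (i - e) ∧ ∃ v ∈ X, sd x v ≤ 2 ^ (i - e)} : ℝ) <
        κ * (4 ^ e * a4 (i - e) (i - k))) ≤ η →
    (∀ (z : ℤ × ℤ) (x : V), x = (z.1 * (2 ^ (i - e) : ℕ), z.2 * (2 ^ (i - e) : ℕ)) →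
      x ∈ GB i k (i - e) →
      PS i (fun X => (∃ v ∈ X, sd x v ≤ 2 ^ (i - e)) ∧ ¬ satC (2 ^ (i - e)) X (ψ z)) ≤
        δ * a4 (i - e) (i - k) ∧
      PPv i (fun X => (∃ v ∈ X, sd x v ≤ 2 * 2 ^ (i - e)) ∧ satO (2 ^ (i - e)) X (ψ z)) ≤
        δ * a4 (i - e) (i - k)) →
    ∃ (G : Finset (ℤ × ℤ)) (T : ℕ), (∀ z ∈ G, 0 ≤ z.1 ∧ z.1 ≤ 2 * 2 ^ e ∧ 0 ≤ z.2 ∧
        z.2 ≤ 2 * 2 ^ e) ∧ (T : ℝ) ≤ κ * 4 ^ e + 1 ∧
      1 - (2 * η + 32 * δ / κ) ≤ PS i (fun X => satC (2 ^ (i - e)) X (TEST G.toList ψ T)) ∧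
      PPv i (fun X => satO (2 ^ (i - e)) X (TEST G.toList ψ T)) ≤ 32 * δ / κ

/-! ## Selection of scales -/

/-- The scale number `l`. -/
def pl (t k₁ m s l : ℕ) : ℕ := t + k₁ + l * (m + 3 * s)

/-- Case (i) test: a gap at one of the scales `l ∈ Λ`. -/
noncomputable def psiI (k₁ m s : ℕ) (Λ : Finset ℕ) (z : ℤ × ℤ) : Form :=
  fOr (Λ.toList.map fun l => fGap z (2 ^ (k₁ + l * (m + 3 * s)) : ℕ)
    (2 ^ (k₁ + l * (m + 3 * s) + m) : ℕ))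

/-- Case (ii) test: no weak pair pattern at any of the scales `l ∈ Λ`. -/
noncomputable def psiII (k₁ m s : ℕ) (Λ : Finset ℕ) (z : ℤ × ℤ) : Form :=
  fAnd (Λ.toList.map fun l =>
    .and (fNP z true (2 ^ (k₁ + l * (m + 3 * s) + 2) : ℕ) (2 ^ (k₁ + l * (m + 3 * s) + m + s) : ℕ)
        (2 ^ (k₁ + l * (m + 3 * s) + m + 3 * s + m - 2) : ℕ))
      (fNP z false (2 ^ (k₁ + l * (m + 3 * s) + 2) : ℕ)
        (2 ^ (k₁ + l * (m + 3 * s) + m + s) : ℕ)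
        (2 ^ (k₁ + l * (m + 3 * s) + m + 3 * s + m - 2) : ℕ)))

/-- S1. Sequence to finite set: `U2i_stmt` for a finite set of scale numbers. Enumerate `Λ` in
increasing order (`Finset.orderEmbOfFin`), continue the sequence by multiples of the step. -/
def S1_stmt : Prop :=
  U2i_stmt → ∃ (C c : ℝ) (k₀ : ℕ), 0 < C ∧ 0 < c ∧ ∀ (i k t k₁ m s : ℕ) (Λ : Finset ℕ) (x : V),
    Λ.Nonempty → k₀ ≤ t → k₀ ≤ m → k₀ ≤ k₁ → k₀ ≤ s → (∀ l ∈ Λ, pl t k₁ m s (l + 1) + k ≤ i) →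
    (x.1 + x.2) % 2 = 0 → Bulk i k x →
      PS i (fun X => (∃ v ∈ X, sd x v ≤ 2 ^ t) ∧
        ∀ l ∈ Λ, ∃ v ∈ X, 2 ^ pl t k₁ m s l < sd x v ∧ sd x v < 2 ^ (pl t k₁ m s l + m)) ≤
      C * Real.exp (-(c * ∑ l ∈ Λ, a4 (pl t k₁ m s l) (pl t k₁ m s l + m))) * a4 t (i - k)

/-- S2. The same for `U1ii_stmt`; elements of `Λ` differ by at least 3. -/
def S2_stmt : Prop :=
  U1ii_stmt → ∃ k₀ : ℕ, ∀ s : ℕ, k₀ ≤ s → ∃ (C c : ℝ), 0 < C ∧ 0 < c ∧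
    ∀ (i k t k₁ m : ℕ) (Λ : Finset ℕ) (x : V),
    k₀ ≤ t → k₀ ≤ m → k₀ ≤ k₁ → Λ.Nonempty → (∀ l ∈ Λ, ∀ l' ∈ Λ, l < l' → l + 3 ≤ l') →
    (∀ l ∈ Λ, pl t k₁ m s (l + 3) + k ≤ i) →
    (x.1 + x.2) % 2 = 0 → Bulk i k x →
      PPv i (fun X => (∃ v ∈ X, sd x v ≤ 2 ^ (t + 1)) ∧
        ∀ l ∈ Λ, ¬ PairS X true x (pl t k₁ m s l) m s ∧ ¬ PairS X false x (pl t k₁ m s l) m s) ≤
      C * Real.exp (-(c * ∑ l ∈ Λ, rat (pl t k₁ m s l) m s)) * a4 t (i - k)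

/-- S3. Partial sums: from a finite set with large sum of terms in `[0, B]` a subset with sum in
`[L, L + B]`. -/
def S3_stmt : Prop :=
  ∀ (Λ : Finset ℕ) (f : ℕ → ℝ) (B L : ℝ), 0 ≤ L → 0 ≤ B → (∀ l ∈ Λ, 0 ≤ f l ∧ f l ≤ B) → L ≤ ∑ l ∈ Λ, f l →
    ∃ Λ' ⊆ Λ, L ≤ ∑ l ∈ Λ', f l ∧ ∑ l ∈ Λ', f l ≤ L + B

/-- S4. Pigeonhole of types: `ty l` is arbitrary (type (i) of the scale number `l`). Among
`l = 3 j, 3 j + 1`, `j < 2 M`: either `M` scales of type (i) in different groups, or `M` groups without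
type (i). -/
def S4_stmt : Prop :=
  ∀ (ty : ℕ → Prop) (M : ℕ),
    (∃ Λ : Finset ℕ, Λ.card = M ∧ (∀ l ∈ Λ, l < 6 * M ∧ ty l) ∧
      ∀ l ∈ Λ, ∀ l' ∈ Λ, l < l' → l + 2 ≤ l') ∨
    (∃ Λ : Finset ℕ, Λ.card = M ∧ (∀ l ∈ Λ, l < 6 * M ∧ ¬ ty l ∧ ¬ ty (l + 1)) ∧
      ∀ l ∈ Λ, ∀ l' ∈ Λ, l < l' → l + 3 ≤ l')

/-- C1. Case (i) at one `i`: the hypotheses of `M1` for `psiI`, with error `δ`.
`L` with `C exp (-c L) ≤ δ`, `K` with `C' (L + 1) / K ≤ δ`; both independent of `m`. -/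
def AC1_stmt : Prop :=
  U1i_stmt → S1_stmt → U2i_stmt → QA_stmt → F1_stmt → F2_stmt →
    ∀ δ : ℝ, 0 < δ → ∃ (L K : ℝ) (k₀ : ℕ), 0 < L ∧ 0 < K ∧
      ∀ (i k t k₁ m s : ℕ) (Λ : Finset ℕ) (z : ℤ × ℤ) (x : V), k₀ ≤ t → k₀ ≤ m → k₀ ≤ k₁ → k₀ ≤ s →
      (∀ l ∈ Λ, pl t k₁ m s (l + 1) + k ≤ i) → x = (z.1 * (2 ^ t : ℕ), z.2 * (2 ^ t : ℕ)) →
      (x.1 + x.2) % 2 = 0 → Bulk i k x →
      (∀ l ∈ Λ, a6 (pl t k₁ m s l + 1) (pl t k₁ m s l + m - 1) ≤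
        a4 (pl t k₁ m s l) (pl t k₁ m s l + m) ^ 2 / K) →
      L ≤ ∑ l ∈ Λ, a4 (pl t k₁ m s l) (pl t k₁ m s l + m) →
      ∑ l ∈ Λ, a4 (pl t k₁ m s l) (pl t k₁ m s l + m) ≤ L + 1 →
        PS i (fun X => (∃ v ∈ X, sd x v ≤ 2 ^ t) ∧ ¬ satC (2 ^ t) X (psiI k₁ m s Λ z)) ≤
          δ * a4 t (i - k) ∧
        PPv i (fun X => (∃ v ∈ X, sd x v ≤ 2 * 2 ^ t) ∧ satO (2 ^ t) X (psiI k₁ m s Λ z)) ≤
          δ * a4 t (i - k)

/-- C2. Case (ii) at one `i`. `K` is given (from case (i)), `s` is large; then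
`L` with `C exp (-c L) ≤ δ`, a bound `B` of `rat` (QA), and `m` large with
`C' exp (-c m) K ^ 3 (L + B) * 2 ≤ δ`. -/
def AC2_stmt : Prop :=
  U2ii_stmt → S2_stmt → U1ii_stmt → QA_stmt → F1_stmt → ASF3_stmt →
    ∀ δ K : ℝ, 0 < δ → 0 < K → ∃ k₀ : ℕ, ∀ s ≥ k₀, ∃ (L B : ℝ) (m₀ : ℕ), 0 < L ∧ 0 < B ∧ k₀ ≤ m₀ ∧
      (∀ p m : ℕ, k₀ ≤ p → k₀ ≤ m → 0 ≤ rat p m s ∧ rat p m s ≤ B) ∧
      ∀ (i k t k₁ m : ℕ) (Λ : Finset ℕ) (z : ℤ × ℤ) (x : V), k₀ ≤ t → m₀ ≤ m → k₀ ≤ k₁ →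
      (∀ l ∈ Λ, ∀ l' ∈ Λ, l < l' → l + 3 ≤ l') → (∀ l ∈ Λ, pl t k₁ m s (l + 3) + k ≤ i) →
      x = (z.1 * (2 ^ t : ℕ), z.2 * (2 ^ t : ℕ)) → (x.1 + x.2) % 2 = 0 → Bulk i k x →
      (∀ l ∈ Λ, (a4 (pl t k₁ m s l) (pl t k₁ m s l + m) ^ 2 / K ≤
          a6 (pl t k₁ m s l + 1) (pl t k₁ m s l + m - 1)) ∧
        a4 (pl t k₁ m s (l + 1)) (pl t k₁ m s (l + 1) + m) ^ 2 / K ≤
          a6 (pl t k₁ m s (l + 1) + 1) (pl t k₁ m s (l + 1) + m - 1)) →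
      L ≤ ∑ l ∈ Λ, rat (pl t k₁ m s l) m s → ∑ l ∈ Λ, rat (pl t k₁ m s l) m s ≤ L + B →
        PS i (fun X => (∃ v ∈ X, sd x v ≤ 2 ^ t) ∧ ¬ satC (2 ^ t) X (psiII k₁ m s Λ z)) ≤
          δ * a4 t (i - k) ∧
        PPv i (fun X => (∃ v ∈ X, sd x v ≤ 2 * 2 ^ t) ∧ satO (2 ^ t) X (psiII k₁ m s Λ z)) ≤
          δ * a4 t (i - k)

/-- P1. From a finite family of tests to the criterion (pigeonhole on infinitely many `i`). -/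
def P1_stmt : Prop :=
  (∀ η : ℝ, 0 < η → ∃ (E i₁ : ℕ) (Fs : List Form), ∀ i ≥ i₁, ∃ φ ∈ Fs,
    1 - η ≤ PS i (fun X => satC (2 ^ (i - E)) X φ) ∧
      PPv i (fun X => satO (2 ^ (i - E)) X φ) ≤ η) → CRIT_stmt

/-- P2. The family of tests is finite: all `TEST G.toList (psiI ..) T`, `TEST G.toList (psiII ..) T` with
`G` a set of centres, `Λ ⊆ range (6 M)`, `T` bounded. Then combine `M1`, `AC1`, `AC2`, `S3`, `S4`, `QA`
(every scale contributes at least `C ^ -(m + 1)` resp. `K ^ -3 C ^ -(4 (m + 1))`). The order of the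
constants: `η → κ, k, e₀ (U3) → δ = η κ / 128 → L₁, K (AC1) → L₂, B, s (AC2) → m → M → k₁ → e → i`. -/
def ASM_main_stmt : Prop :=
  P1_stmt → M1_stmt → AC1_stmt → AC2_stmt → S1_stmt → S2_stmt → S3_stmt → S4_stmt → F1_stmt →
    F2_stmt → ASF3_stmt → ASM_stmt

end TP
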